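import Pool.Agent.H474R2.PG.Class
import Pool.Agent.H474R2.PG.Count

/-!
Choice of residue classes modulo small primes for a finite set of polynomials, and counting with a
different polynomial for every prime.
-/

set_option autoImplicit false

namespace Pool.Agent.K7.H60.SP

open Polynomial Finset Pool.Agent.H474R2.PG

open scoped Classical

/-- local factor -/
noncomputable def phi (θ : ℝ) (p : ℕ) (a : ℤ) (G : ℤ[X]) : ℝ :=
  if (p : ℤ) ∣ G.eval a then θ else 1

/-- its mean -/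
noncomputable def mphi (θ : ℝ) (p : ℕ) (G : ℤ[X]) : ℝ := 1 - (1 - θ) * ((rho G p : ℝ) / p)

lemma phi_nonneg {θ : ℝ} (hθ : 0 ≤ θ) (p : ℕ) (a : ℤ) (G : ℤ[X]) : 0 ≤ phi θ p a G := by
  unfold phi
  split_ifs
  · exact hθ
  · exact zero_le_one

lemma mphi_nonneg {θ : ℝ} (hθ : 0 ≤ θ) (hθ1 : θ ≤ 1) {p : ℕ} (hp : p.Prime) (G : ℤ[X]) :
    0 ≤ mphi θ p G := by
  unfold mphi
  have hp0 : (0 : ℝ) < p := by exact_mod_cast hp.pos
  have h1 : (rho G p : ℝ) / p ≤ 1 := by
    rw [div_le_one hp0]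
    exact_mod_cast rho_le_self G p
  have h2 : 0 ≤ (rho G p : ℝ) / p := by positivity
  nlinarith

lemma sum_phi (θ : ℝ) {p : ℕ} (hp : p.Prime) (G : ℤ[X]) :
    ∑ a ∈ range p, phi θ p (a : ℤ) G = p * mphi θ p G := by
  have hp0 : (p : ℝ) ≠ 0 := by exact_mod_cast hp.ne_zero
  unfold phi
  rw [Finset.sum_ite, sum_const, sum_const, nsmul_eq_mul, nsmul_eq_mul, mul_one]
  have h3 := Finset.card_filter_add_card_filter_not (s := Finset.range p)
    (fun a : ℕ => (p : ℤ) ∣ G.eval (a : ℤ))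
  have h4 : ((Finset.range p).filter (fun a : ℕ => (p : ℤ) ∣ G.eval (a : ℤ))).card = rho G p := rfl
  rw [h4, card_range] at h3
  have h5 : (rho G p : ℝ) + (((Finset.range p).filter
      (fun a : ℕ => ¬ (p : ℤ) ∣ G.eval (a : ℤ))).card : ℝ) = p := by
    exact_mod_cast h3
  have h6 : (((Finset.range p).filter (fun a : ℕ => (p : ℤ) ∣ G.eval (a : ℤ))).card : ℝ) =
      rho G p := by rw [h4]
  rw [h6]
  unfold mphi
  field_simp
  linarith

lemma one_prime' (θ : ℝ) {p : ℕ} (hp : p.Prime) (𝒢 : Finset ℤ[X]) (w : ℤ[X] → ℝ) :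
    ∃ a : ℤ, ∑ G ∈ 𝒢, w G * phi θ p a G ≤ ∑ G ∈ 𝒢, w G * mphi θ p G := by
  have hp0 : (0 : ℝ) < p := by exact_mod_cast hp.pos
  have hne : (Finset.range p).Nonempty := Finset.nonempty_range_iff.2 hp.ne_zero
  obtain ⟨a, -, ha⟩ := Finset.exists_le_of_sum_le (s := Finset.range p)
    (f := fun a : ℕ => ∑ G ∈ 𝒢, w G * phi θ p (a : ℤ) G)
    (g := fun _ => ∑ G ∈ 𝒢, w G * mphi θ p G) hne (by
      rw [sum_comm, sum_const, card_range, nsmul_eq_mul, mul_sum]
      apply le_of_eq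
      apply sum_congr rfl
      intro G _
      rw [← mul_sum, sum_phi θ hp]
      ring)
  exact ⟨a, ha⟩

lemma choose_all' (θ : ℝ) (hθ : 0 ≤ θ) (hθ1 : θ ≤ 1) (𝒢 : Finset ℤ[X]) (S : Finset ℕ)
    (hS : ∀ p ∈ S, p.Prime) (w : ℤ[X] → ℝ) (hw : ∀ G, 0 ≤ w G) :
    ∃ a : ℕ → ℤ, ∑ G ∈ 𝒢, w G * ∏ p ∈ S, phi θ p (a p) G ≤
      ∑ G ∈ 𝒢, w G * ∏ p ∈ S, mphi θ p G := by
  induction S using Finset.induction_on generalizing w with
  | empty => exact ⟨fun _ => 0, by simp⟩
  | insert p S hpS ih =>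
    have hp := hS p (Finset.mem_insert_self p S)
    have hS' : ∀ q ∈ S, q.Prime := fun q hq => hS q (Finset.mem_insert_of_mem hq)
    obtain ⟨a0, ha0⟩ := one_prime' θ hp 𝒢 (fun G => w G * ∏ q ∈ S, mphi θ q G)
    obtain ⟨a, ha⟩ := ih hS' (fun G => w G * phi θ p a0 G)
      (fun G => mul_nonneg (hw G) (phi_nonneg hθ _ _ _))
    refine ⟨Function.update a p a0, ?_⟩
    have e1 : ∀ G, ∏ q ∈ insert p S, phi θ q (Function.update a p a0 q) G =
        phi θ p a0 G * ∏ q ∈ S, phi θ q (a q) G := by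
      intro G
      rw [prod_insert hpS, Function.update_self]
      congr 1
      apply prod_congr rfl
      intro q hq
      rw [Function.update_of_ne (by rintro rfl; exact hpS hq)]
    calc ∑ G ∈ 𝒢, w G * ∏ q ∈ insert p S, phi θ q (Function.update a p a0 q) G
        = ∑ G ∈ 𝒢, w G * phi θ p a0 G * ∏ q ∈ S, phi θ q (a q) G := by
          apply sum_congr rfl
          intro G _
          rw [e1]; ring
      _ ≤ ∑ G ∈ 𝒢, w G * phi θ p a0 G * ∏ q ∈ S, mphi θ q G := ha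
      _ = ∑ G ∈ 𝒢, (w G * ∏ q ∈ S, mphi θ q G) * phi θ p a0 G := by
          apply sum_congr rfl
          intro G _
          ring
      _ ≤ ∑ G ∈ 𝒢, (w G * ∏ q ∈ S, mphi θ q G) * mphi θ p G := ha0
      _ = ∑ G ∈ 𝒢, w G * ∏ q ∈ insert p S, mphi θ q G := by
          apply sum_congr rfl
          intro G _
          rw [prod_insert hpS]; ring

/-- choice of a residue class for the small primes (potential function + Chinese remainders) -/
theorem class_choice' (θ : ℝ) (hθ : 0 ≤ θ) (hθ1 : θ ≤ 1) (𝒢 : Finset ℤ[X]) (S : Finset ℕ)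
    (hS : ∀ p ∈ S, p.Prime) :
    ∃ r : ℤ, ∑ G ∈ 𝒢, θ ^ (S.filter (fun p : ℕ => (p : ℤ) ∣ G.eval r)).card ≤
      ∑ G ∈ 𝒢, ∏ p ∈ S, mphi θ p G := by
  obtain ⟨a, ha⟩ := choose_all' θ hθ hθ1 𝒢 S hS (fun _ => 1) (fun _ => zero_le_one)
  obtain ⟨r, hr⟩ := Pool.Agent.H256R2.SC.crt_int S (fun p : ℕ => (p : ℤ))
    (fun i hi j hj hij => by
      rw [Nat.isCoprime_iff_coprime]
      exact (Nat.coprime_primes (hS i hi) (hS j hj)).2 hij) a
  refine ⟨r, le_trans (le_of_eq ?_) (ha.trans (le_of_eq ?_))⟩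
  · apply sum_congr rfl
    intro G _
    rw [one_mul, ← prod_const, prod_filter]
    apply prod_congr rfl
    intro p hp
    unfold phi
    have h1 : (p : ℤ) ∣ G.eval r ↔ (p : ℤ) ∣ G.eval (a p) := eval_dvd_congr G p _ _ (hr p hp)
    by_cases h2 : (p : ℤ) ∣ G.eval r
    · rw [if_pos h2, if_pos (h1.1 h2)]
    · rw [if_neg h2, if_neg (fun h => h2 (h1.2 h))]
  · apply sum_congr rfl
    intro G _
    rw [one_mul]

/-- counting in residue classes, with a different polynomial for every prime -/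
theorem count_class' (F : ℕ → ℤ[X]) (A B : ℤ) (hAB : A ≤ B) (W : ℕ) (hW : 1 ≤ W) (r : ℤ)
    (T : Finset ℕ) (hT : ∀ p ∈ T, p.Prime ∧ ¬ p ∣ W) :
    |(((Finset.Ioc A B).filter (fun a : ℤ => (W : ℤ) ∣ a - r ∧
        ∀ p ∈ T, (p : ℤ) ∣ (F p).eval a)).card : ℝ) -
      ((B : ℝ) - A) / W * ∏ p ∈ T, (rho (F p) p : ℝ) / (p : ℝ)| ≤
        ∏ p ∈ T, (rho (F p) p : ℝ) := by
  classical
  induction T using Finset.induction_on generalizing W r with
  | empty =>
    have h := Pool.Agent.H256R2.SC.count_ap A B hAB W hW r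
    simpa using h
  | insert p T hpT ih =>
    obtain ⟨hp, hpW⟩ := hT p (Finset.mem_insert_self p T)
    have hp0 : (0 : ℤ) < (p : ℤ) := by exact_mod_cast hp.pos
    have hpR : (0 : ℝ) < (p : ℝ) := by exact_mod_cast hp.pos
    have hWR : (0 : ℝ) < (W : ℝ) := by exact_mod_cast hW
    obtain ⟨Z, hZ⟩ : ∃ Z, Z = (Finset.range p).filter
        (fun a : ℕ => (p : ℤ) ∣ (F p).eval (a : ℤ)) := ⟨_, rfl⟩
    have hZc : Z.card = rho (F p) p := by rw [hZ]; rfl
    have hcop : IsCoprime (W : ℤ) (p : ℤ) := by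
      rw [Nat.isCoprime_iff_coprime]
      exact (Nat.Coprime.symm ((Nat.Prime.coprime_iff_not_dvd hp).2 hpW))
    -- the classes
    have hcrt : ∀ c : ℕ, ∃ rc : ℤ, (W : ℤ) ∣ rc - r ∧ (p : ℤ) ∣ rc - (c : ℤ) := by
      intro c
      obtain ⟨u, v, huv⟩ := hcop
      refine ⟨r * (v * p) + (c : ℤ) * (u * W), ?_, ?_⟩
      · refine ⟨u * ((c : ℤ) - r), ?_⟩
        have : v * (p : ℤ) = 1 - u * W := by linarith
        rw [this]; ring
      · refine ⟨v * (r - (c : ℤ)), ?_⟩
        have : u * (W : ℤ) = 1 - v * p := by linarith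
        rw [this]; ring
    choose rc hrc1 hrc2 using hcrt
    obtain ⟨E, hE⟩ : ∃ E, E = (Finset.Ioc A B).filter (fun a : ℤ => (W : ℤ) ∣ a - r ∧
        ∀ q ∈ insert p T, (q : ℤ) ∣ (F q).eval a) := ⟨_, rfl⟩
    have hfib : E.card = ∑ c ∈ Z, ((Finset.Ioc A B).filter (fun a : ℤ =>
        ((W * p : ℕ) : ℤ) ∣ a - rc c ∧ ∀ q ∈ T, (q : ℤ) ∣ (F q).eval a)).card := by
      have hmod : ∀ a : ℤ, (((a % (p : ℤ)).toNat : ℕ) : ℤ) = a % (p : ℤ) :=
        fun a => Int.toNat_of_nonneg (Int.emod_nonneg _ hp0.ne')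
      have hdvd : ∀ a : ℤ, (p : ℤ) ∣ a - ((a % (p : ℤ)).toNat : ℕ) := by
        intro a
        rw [hmod]
        exact Int.dvd_self_sub_emod
      have hmaps : Set.MapsTo (fun a : ℤ => (a % (p : ℤ)).toNat) (E : Set ℤ)
          (Z : Set ℕ) := by
        intro a ha
        rw [Finset.mem_coe, hE, Finset.mem_filter] at ha
        rw [Finset.mem_coe, hZ, Finset.mem_filter, Finset.mem_range]
        constructor
        · have h1 := Int.emod_lt_of_pos a hp0
          have h2 := hmod a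
          show (a % (p : ℤ)).toNat < p
          omega
        · have h3 := ha.2.2 p (Finset.mem_insert_self p T)
          exact (eval_dvd_congr (F p) p _ _ (hdvd a)).1 h3
      rw [Finset.card_eq_sum_card_fiberwise hmaps]
      refine Finset.sum_congr rfl (fun c hc => ?_)
      congr 1
      rw [hZ, Finset.mem_filter, Finset.mem_range] at hc
      ext a
      rw [hE, Finset.mem_filter, Finset.mem_filter, Finset.mem_filter]
      constructor
      · rintro ⟨⟨h1, h2, h3⟩, h4⟩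
        refine ⟨h1, ?_, fun q hq => h3 q (Finset.mem_insert_of_mem hq)⟩
        have h5 := hdvd a
        rw [h4] at h5
        have h6 : (p : ℤ) ∣ a - rc c := by
          have := dvd_sub h5 (hrc2 c)
          have e : a - (c : ℤ) - (rc c - (c : ℤ)) = a - rc c := by ring
          rwa [e] at this
        have h7 : (W : ℤ) ∣ a - rc c := by
          have := dvd_sub h2 (hrc1 c)
          have e : a - r - (rc c - r) = a - rc c := by ring
          rwa [e] at this
        push_cast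
        exact hcop.mul_dvd h7 h6
      · rintro ⟨h1, h2, h3⟩
        push_cast at h2
        have h7 : (W : ℤ) ∣ a - rc c := (Dvd.intro _ rfl).trans h2
        have h6 : (p : ℤ) ∣ a - rc c := (Dvd.intro_left _ rfl).trans h2
        have h5 : (p : ℤ) ∣ a - (c : ℤ) := by
          have := dvd_add h6 (hrc2 c)
          have e : a - rc c + (rc c - (c : ℤ)) = a - (c : ℤ) := by ring
          rwa [e] at this
        refine ⟨⟨h1, ?_, ?_⟩, ?_⟩
        · have := dvd_add h7 (hrc1 c)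
          have e : a - rc c + (rc c - r) = a - r := by ring
          rwa [e] at this
        · intro q hq
          rcases Finset.mem_insert.1 hq with rfl | hq
          · exact (eval_dvd_congr (F q) q _ _ h5).2 hc.2
          · exact h3 q hq
        · have h8 : a % (p : ℤ) = c := by
            have h10 : a % (p : ℤ) = (c : ℤ) % (p : ℤ) :=
              ((Int.modEq_iff_dvd.2 h5).symm)
            rw [h10]
            exact Int.emod_eq_of_lt (by omega) (by exact_mod_cast hc.1)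
          show (a % (p : ℤ)).toNat = c
          rw [h8]
          simp
    rw [← hE, hfib]
    have hWp : 1 ≤ W * p := Nat.mul_pos hW hp.pos
    have hT' : ∀ q ∈ T, q.Prime ∧ ¬ q ∣ W * p := by
      intro q hq
      obtain ⟨h1, h2⟩ := hT q (Finset.mem_insert_of_mem hq)
      refine ⟨h1, fun h => ?_⟩
      rcases (Nat.Prime.dvd_mul h1).1 h with h | h
      · exact h2 h
      · have := (Nat.prime_dvd_prime_iff_eq h1 hp).1 h
        exact hpT (this ▸ hq)
    have hbd := fun c => ih (W * p) hWp (rc c) hT'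
    rw [Finset.prod_insert hpT, Finset.prod_insert hpT]
    push_cast
    have e1 : ∑ c ∈ Z, (((Finset.Ioc A B).filter (fun a : ℤ =>
        ((W : ℤ) * p) ∣ a - rc c ∧ ∀ q ∈ T, (q : ℤ) ∣ (F q).eval a)).card : ℝ) -
        ((B : ℝ) - A) / W * ((rho (F p) p : ℝ) / p * ∏ q ∈ T, (rho (F q) q : ℝ) / (q : ℝ)) =
        ∑ c ∈ Z, ((((Finset.Ioc A B).filter (fun a : ℤ =>
        ((W * p : ℕ) : ℤ) ∣ a - rc c ∧ ∀ q ∈ T, (q : ℤ) ∣ (F q).eval a)).card : ℝ) -
        ((B : ℝ) - A) / (W * p : ℕ) * ∏ q ∈ T, (rho (F q) q : ℝ) / (q : ℝ)) := by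
      rw [Finset.sum_sub_distrib, Finset.sum_const, hZc, nsmul_eq_mul]
      push_cast
      congr 1
      field_simp
    rw [e1]
    refine (Finset.abs_sum_le_sum_abs _ _).trans ?_
    refine (Finset.sum_le_sum (fun c _ => hbd c)).trans ?_
    rw [Finset.sum_const, hZc, nsmul_eq_mul]

end Pool.Agent.K7.H60.SP
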