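import Pool.Agent.H474R2.PG.NoColl

/-!
Large primes do not divide values of two different irreducible polynomials at close arguments.
-/

set_option autoImplicit false

namespace Pool.Agent.K7.H60.SP

open Polynomial Finset

/-- the translates of an irreducible polynomial are irreducible -/
lemma irr_comp {g : ℤ[X]} (hg : Irreducible g) (t : ℤ) : Irreducible (g.comp (X + C t)) := by
  have h : g.comp (X + C t) = taylorEquiv t g := rfl
  rw [h]
  exact (MulEquiv.irreducible_iff (taylorEquiv t)).2 hg

lemma comp_natDegree (g : ℤ[X]) (t : ℤ) : (g.comp (X + C t)).natDegree = g.natDegree := by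
  rw [natDegree_comp, natDegree_X_add_C, mul_one]

lemma comp_leadingCoeff (g : ℤ[X]) (t : ℤ) :
    (g.comp (X + C t)).leadingCoeff = g.leadingCoeff := by
  rw [leadingCoeff_comp (by rw [natDegree_X_add_C]; exact one_ne_zero), leadingCoeff_X_add_C,
    one_pow, mul_one]

/-- two irreducible integer polynomials with positive leading coefficients are equal or
coprime over the rationals -/
lemma coprime_of_ne {f g : ℤ[X]} (hf : Irreducible f) (hg : Irreducible g)
    (hdf : 0 < f.natDegree) (hlf : 0 < f.leadingCoeff) (hlg : 0 < g.leadingCoeff)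
    (hne : f ≠ g) :
    IsCoprime (f.map (Int.castRingHom ℚ)) (g.map (Int.castRingHom ℚ)) := by
  have hprim : f.IsPrimitive := hf.isPrimitive hdf.ne'
  have hirr : Irreducible (f.map (Int.castRingHom ℚ)) :=
    (IsPrimitive.Int.irreducible_iff_irreducible_map_cast hprim).1 hf
  rw [hirr.coprime_iff_not_dvd, ← IsPrimitive.Int.dvd_iff_map_cast_dvd_map_cast f g hprim]
  intro hdvd
  have hass : Associated f g := hf.associated_of_dvd hg hdvd
  obtain ⟨u, hu⟩ := hass
  obtain ⟨r, hr, hru⟩ := Polynomial.isUnit_iff.1 u.isUnit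
  rw [← hru] at hu
  rcases Int.isUnit_iff.1 hr with h1 | h1
  · apply hne
    rw [← hu, h1]
    simp
  · rw [h1] at hu
    rw [← hu] at hlg
    rw [leadingCoeff_mul] at hlg
    simp at hlg
    omega

/-- large primes do not divide values of different irreducible polynomials at close arguments -/
theorem coll_pair (f g : ℤ[X]) (hf : Irreducible f) (hg : Irreducible g)
    (hdf : 0 < f.natDegree) (hlf : 0 < f.leadingCoeff) (hlg : 0 < g.leadingCoeff) :
    ∃ K : ℝ, 0 ≤ K ∧ ∃ D : ℕ, ∀ t : ℤ, f ≠ g.comp (X + C t) → ∀ p : ℕ, p.Prime → ∀ x : ℤ,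
      (p : ℤ) ∣ f.eval x → (p : ℤ) ∣ g.eval (x + t) → (p : ℝ) ≤ K * (1 + |(t : ℝ)|) ^ D := by
  classical
  set d := f.natDegree with hdd
  set e := g.natDegree with hee
  set F : ℤ[X][X] := f.map C with hF
  set G : ℤ[X][X] := (g.map C).comp (X + C X) with hG
  have hFd : F.natDegree ≤ d := natDegree_map_le
  have hGd : G.natDegree ≤ e := by
    have h1 : (X + C X : ℤ[X][X]).natDegree = 1 := natDegree_X_add_C _
    calc G.natDegree ≤ (g.map C).natDegree * (X + C X : ℤ[X][X]).natDegree := natDegree_comp_le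
      _ ≤ e := by rw [h1, mul_one]; exact natDegree_map_le
  obtain ⟨P, Q, -, -, hPQ⟩ := exists_mul_add_mul_eq_C_resultant F G hFd hGd (Or.inl hdf.ne')
  set R : ℤ[X] := F.resultant G d e with hR
  have key1 : ∀ x t : ℤ, ∃ u v : ℤ, f.eval x * u + g.eval (x + t) * v = R.eval t := by
    intro x t
    refine ⟨((P.eval (C x)).eval t), ((Q.eval (C x)).eval t), ?_⟩
    have h := congrArg (fun q : ℤ[X][X] => (q.eval (C x)).eval t) hPQ
    simp only [eval_add, eval_mul, eval_C] at h
    have hFx : (F.eval (C x)).eval t = f.eval x := by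
      rw [hF, eval_map, eval₂_at_apply, eval_C]
    have hGx : (G.eval (C x)).eval t = g.eval (x + t) := by
      rw [hG, eval_comp, eval_map]
      simp only [eval_add, eval_X, eval_C]
      have := Polynomial.hom_eval₂ g C (evalRingHom t) (C x + X)
      simp only [coe_evalRingHom] at this
      rw [this]
      have hid : (evalRingHom t).comp C = RingHom.id ℤ := by
        ext; simp
      rw [hid]
      simp [eval₂_id]
    rw [hFx, hGx] at h
    exact h
  have key2 : ∀ t : ℤ, f ≠ g.comp (X + C t) → R.eval t ≠ 0 := by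
    intro t ht h0
    have h1 := resultant_map_map F G d e (evalRingHom t)
    have hFm : F.map (evalRingHom t) = f := by
      rw [hF, Polynomial.map_map]
      have hid : (evalRingHom t).comp C = RingHom.id ℤ := by
        ext; simp
      rw [hid, Polynomial.map_id]
    have hGm : G.map (evalRingHom t) = g.comp (X + C t) := by
      rw [hG, Polynomial.map_comp, Polynomial.map_map]
      have hid : (evalRingHom t).comp C = RingHom.id ℤ := by
        ext; simp
      rw [hid, Polynomial.map_id]
      simp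
    rw [hFm, hGm, ← hR] at h1
    have h2 : f.resultant (g.comp (X + C t)) d e = 0 := by
      rw [h1]
      simpa using h0
    have h3 := resultant_map_map f (g.comp (X + C t)) d e (Int.castRingHom ℚ)
    rw [h2, map_zero] at h3
    have hinj : Function.Injective (Int.castRingHom ℚ) := RingHom.injective_int _
    have hn1 : (f.map (Int.castRingHom ℚ)).natDegree = d := natDegree_map_eq_of_injective hinj f
    have hn2 : ((g.comp (X + C t)).map (Int.castRingHom ℚ)).natDegree = e := by
      rw [natDegree_map_eq_of_injective hinj, comp_natDegree]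
    have h4 := resultant_ne_zero (f.map (Int.castRingHom ℚ))
      ((g.comp (X + C t)).map (Int.castRingHom ℚ))
      (coprime_of_ne hf (irr_comp hg t) hdf hlf (by rw [comp_leadingCoeff]; exact hlg) ht)
    rw [hn1, hn2] at h4
    exact h4 h3
  set K : ℝ := ∑ i ∈ range (R.natDegree + 1), |((R.coeff i : ℤ) : ℝ)| with hK
  have key3 : ∀ t : ℤ, |((R.eval t : ℤ) : ℝ)| ≤ K * (1 + |(t : ℝ)|) ^ R.natDegree := by
    intro t
    have h1 : (1 : ℝ) ≤ 1 + |(t : ℝ)| := by linarith [abs_nonneg (t : ℝ)]
    rw [eval_eq_sum_range]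
    push_cast
    refine (abs_sum_le_sum_abs _ _).trans ?_
    rw [hK, sum_mul]
    refine sum_le_sum fun i hi => ?_
    rw [abs_mul, abs_pow]
    refine mul_le_mul_of_nonneg_left ?_ (abs_nonneg _)
    calc |(t : ℝ)| ^ i ≤ (1 + |(t : ℝ)|) ^ i :=
          pow_le_pow_left₀ (abs_nonneg _) (by linarith) i
      _ ≤ (1 + |(t : ℝ)|) ^ R.natDegree :=
          pow_le_pow_right₀ h1 (by simpa [Nat.lt_succ_iff] using hi)
  refine ⟨K, sum_nonneg fun i _ => abs_nonneg _, R.natDegree, ?_⟩
  intro t ht p hp x hx hxt
  obtain ⟨u, v, huv⟩ := key1 x t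
  have hdvd : (p : ℤ) ∣ R.eval t := by
    rw [← huv]
    exact dvd_add (hx.mul_right _) (hxt.mul_right _)
  have hne : R.eval t ≠ 0 := key2 _ ht
  have hle : (p : ℤ) ≤ |R.eval t| :=
    Int.le_of_dvd (abs_pos.2 hne) ((dvd_abs _ _).2 hdvd)
  have hle' : (p : ℝ) ≤ |((R.eval t : ℤ) : ℝ)| := by
    have : ((p : ℤ) : ℝ) ≤ ((|R.eval t| : ℤ) : ℝ) := by exact_mod_cast hle
    rw [Int.cast_abs] at this
    simpa using this
  exact hle'.trans (key3 t)

end Pool.Agent.K7.H60.SP
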