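import Pool.Agent.K7.H60.SP.Coll
import Pool.Agent.K7.H60.SP.Choice
import Pool.Agent.W154.PV.CovD
import Pool.Agent.W154.PV.RoughD
import Pool.Agent.H474R2.PG.Final
import Pool.Agent.H474R2.GE.FA

/-!
Long strings of consecutive integers at which all the polynomials of a finite family take
composite values.
-/

set_option autoImplicit false
set_option linter.unusedSectionVars false

namespace Pool.Agent.K7.H60.SP

open Polynomial Finset Filter Pool.Agent.H474R2.PG Pool.Agent.H426R3.SQ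

open scoped Classical

lemma rho_comp (f : ℤ[X]) (k : ℤ) {p : ℕ} (hp : p.Prime) :
    Pool.Agent.H474R2.PG.rho (f.comp (X + C k)) p = Pool.Agent.H474R2.PG.rho f p := by
  rw [← rho_shift f p hp k]
  unfold Pool.Agent.H474R2.PG.rho
  congr 1
  apply filter_congr
  intro a _
  rw [eval_comp]
  simp

lemma comp_shift (g : ℤ[X]) (k k' : ℤ) :
    (g.comp (X + C (k' - k))).comp (X + C k) = g.comp (X + C k') := by
  rw [comp_assoc]
  congr 1
  rw [add_comp, X_comp, C_comp, add_assoc, ← C_add, add_sub_cancel]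

/-- the densities -/
noncomputable def gd (y₁ : ℝ) (p : ℕ) (G : ℤ[X]) : ℝ :=
  if y₁ < (p : ℝ) ∧ p.Prime then (Pool.Agent.H474R2.PG.rho G p : ℝ) / p else 0

lemma gd_nonneg (y₁ : ℝ) (p : ℕ) (G : ℤ[X]) : 0 ≤ gd y₁ p G := by
  unfold gd
  split_ifs
  · positivity
  · exact le_rfl

/-- the excluded primes -/
noncomputable def EX (y₁ : ℝ) : Finset ℕ := range (⌊y₁⌋₊ + 1)

lemma mem_EX {y₁ : ℝ} (h : 0 ≤ y₁) {p : ℕ} : p ∈ EX y₁ ↔ (p : ℝ) ≤ y₁ := by
  unfold EX
  rw [mem_range, Nat.lt_succ_iff, Nat.le_floor_iff h]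

lemma SP_eq {y₁ y z : ℝ} (hy : 0 ≤ y₁) (hyy : y ≤ y₁) :
    SP y z (EX y₁) = SP y₁ z (EX y₁) := by
  unfold SP
  apply filter_congr
  intro p _
  rw [mem_EX hy]
  constructor
  · rintro ⟨h1, -, h3⟩; exact ⟨h1, not_le.1 h3, h3⟩
  · rintro ⟨h1, h2, h3⟩; exact ⟨h1, lt_of_le_of_lt hyy h2, h3⟩

lemma sum_gd {y₁ w : ℝ} (hy : 0 ≤ y₁) (hyw : y₁ ≤ w) (G : ℤ[X]) :
    ∑ p ∈ SP y₁ w (EX y₁), gd y₁ p G =
      Sg (Pool.Agent.H474R2.PG.rho G) w - Sg (Pool.Agent.H474R2.PG.rho G) y₁ := by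
  unfold Sg
  have h1 : PR w = PR y₁ ∪ SP y₁ w (EX y₁) := by
    ext p
    unfold PR SP
    simp only [mem_union, mem_filter, mem_Icc, Nat.le_floor_iff hy, Nat.le_floor_iff (hy.trans hyw),
      mem_EX hy]
    constructor
    · rintro ⟨⟨h1, h2⟩, h3⟩
      by_cases h4 : (p : ℝ) ≤ y₁
      · exact Or.inl ⟨⟨h1, h4⟩, h3⟩
      · exact Or.inr ⟨⟨h1, h2⟩, h3, not_le.1 h4, h4⟩
    · rintro (⟨⟨h1, h2⟩, h3⟩ | ⟨⟨h1, h2⟩, h3, h4, h5⟩)
      · exact ⟨⟨h1, h2.trans hyw⟩, h3⟩
      · exact ⟨⟨h1, h2⟩, h3⟩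
  have h2 : Disjoint (PR y₁) (SP y₁ w (EX y₁)) := by
    rw [Finset.disjoint_left]
    intro p hp hp2
    unfold PR at hp
    unfold SP at hp2
    rw [mem_filter, mem_Icc, Nat.le_floor_iff hy] at hp
    rw [mem_filter] at hp2
    linarith [hp.1.2, hp2.2.2.1]
  rw [h1, sum_union h2, add_sub_cancel_left]
  apply sum_congr rfl
  intro p hp
  unfold SP at hp
  rw [mem_filter] at hp
  unfold gd
  rw [if_pos ⟨hp.2.2.1, hp.2.1⟩]

/-- size of the error term -/
lemma err_le' (Δ : ℝ) (hΔ : 1 ≤ Δ) (L : ℝ) (hL : 1 < L)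
    (hlog : 10 * Real.log Δ ≤ Real.log L) (T : Finset ℕ) (F : ℕ → ℤ[X])
    (hT : ∀ p ∈ T, L < (p : ℝ) ∧ (Pool.Agent.H474R2.PG.rho (F p) p : ℝ) ≤ Δ)
    (hTX : ∏ p ∈ T, (p : ℝ) ≤ Real.exp (1 / 4 * L)) :
    ∏ p ∈ T, (Pool.Agent.H474R2.PG.rho (F p) p : ℝ) ≤ Real.exp (1 / 10 * L) := by
  have hL0 : 0 < L := by linarith
  have hlL : 0 < Real.log L := Real.log_pos hL
  have h1 : ∏ p ∈ T, (Pool.Agent.H474R2.PG.rho (F p) p : ℝ) ≤ ∏ p ∈ T, Δ := by
    apply Finset.prod_le_prod
    · intro p _; positivity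
    · intro p hp
      exact (hT p hp).2
  rw [Finset.prod_const] at h1
  have h2 : L ^ T.card ≤ ∏ p ∈ T, (p : ℝ) := by
    have : L ^ T.card = ∏ p ∈ T, L := by rw [Finset.prod_const]
    rw [this]
    exact Finset.prod_le_prod (fun _ _ => hL0.le) (fun p hp => (hT p hp).1.le)
  have h3 : (T.card : ℝ) * Real.log L ≤ 1 / 4 * L := by
    have h4 := h2.trans hTX
    have h5 := Real.log_le_log (by positivity) h4
    rw [Real.log_pow, Real.log_exp] at h5
    exact h5
  refine h1.trans ?_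
  have h6 : Δ ^ T.card = Real.exp (T.card * Real.log Δ) := by
    rw [Real.exp_nat_mul, Real.exp_log (by linarith)]
  rw [h6]
  apply Real.exp_le_exp.mpr
  have h7 : (T.card : ℝ) * (10 * Real.log Δ) ≤ T.card * Real.log L :=
    mul_le_mul_of_nonneg_left hlog (Nat.cast_nonneg _)
  linarith

/-- the polynomials `f i (x + k)`, `0 ≤ k ≤ H` -/
noncomputable def Fam {ι : Type} [Fintype ι] (f : ι → ℤ[X]) (H : ℕ) : Finset ℤ[X] :=
  (univ ×ˢ range (H + 1)).image (fun q : ι × ℕ => (f q.1).comp (X + C ((q.2 : ℕ) : ℤ)))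

lemma mem_Fam {ι : Type} [Fintype ι] {f : ι → ℤ[X]} {H : ℕ} {G : ℤ[X]} :
    G ∈ Fam f H ↔ ∃ i : ι, ∃ k : ℕ, k ≤ H ∧ G = (f i).comp (X + C (k : ℤ)) := by
  unfold Fam
  rw [mem_image]
  constructor
  · rintro ⟨⟨i, k⟩, h1, h2⟩
    rw [mem_product, mem_range] at h1
    exact ⟨i, k, by have := h1.2; omega, h2.symm⟩
  · rintro ⟨i, k, hk, rfl⟩
    exact ⟨(i, k), by rw [mem_product, mem_range]; exact ⟨mem_univ _, by simpa using by omega⟩, rfl⟩

/-- **Long strings of simultaneously composite values.** -/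
theorem simul {ι : Type} [Fintype ι] [Nonempty ι] (f : ι → ℤ[X]) (hf : ∀ i, Irreducible (f i))
    (hd : ∀ i, 0 < (f i).natDegree) (hl : ∀ i, 0 < (f i).leadingCoeff) :
    ∃ c : ℝ, 0 < c ∧ ∃ Y₀ : ℝ, ∀ Y : ℝ, Y₀ ≤ Y → ∀ M : ℤ, Y ≤ M →
      ∃ x : ℤ, M < x ∧ (x : ℝ) + c * Real.log Y * Real.log (Real.log Y) ≤ M + Y ∧
        ∀ k : ℕ, (k : ℝ) ≤ c * Real.log Y * Real.log (Real.log Y) → ∀ i,
          ∃ p : ℕ, p.Prime ∧ (p : ℝ) ≤ Y ^ (1 / 10 : ℝ) ∧ (p : ℤ) ∣ (f i).eval (x + (k : ℤ)) ∧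
            (p : ℤ) < (f i).eval (x + (k : ℤ)) := by
  -- constants
  choose B hB using fun i => rho_le (f i) (hf i).ne_zero
  choose Cm hC0 hM using fun i => Pool.Agent.H474R2.GE.mertens_rho (f i) (hf i) (hd i)
  set B₀ : ℕ := ∑ i, B i with hB₀
  have hBi : ∀ i, B i ≤ B₀ := fun i => single_le_sum (fun _ _ => Nat.zero_le _) (mem_univ i)
  set C₀ : ℝ := ∑ i, Cm i with hC₀
  have hCi : ∀ i, Cm i ≤ C₀ := fun i => single_le_sum (fun j _ => hC0 j) (mem_univ i)
  have hC₀0 : 0 ≤ C₀ := sum_nonneg fun j _ => hC0 j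
  set Δn : ℕ := ∑ i, (f i).natDegree with hΔn
  have hΔi : ∀ i, (f i).natDegree ≤ Δn := fun i =>
    single_le_sum (f := fun i => (f i).natDegree) (fun _ _ => Nat.zero_le _) (mem_univ i)
  set Δ : ℝ := (Δn : ℝ) with hΔ
  have hΔ1 : 1 ≤ Δ := by
    obtain ⟨i₀⟩ := (inferInstance : Nonempty ι)
    have h1 := hΔi i₀
    have h2 := hd i₀
    have : 1 ≤ Δn := by omega
    rw [hΔ]
    exact_mod_cast this
  -- collisions
  choose K hK0 D hcoll using fun q : ι × ι =>
    coll_pair (f q.1) (f q.2) (hf q.1) (hf q.2) (hd q.1) (hl q.1) (hl q.2)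
  set K₀ : ℝ := ∑ q, K q with hK₀
  have hKq : ∀ q, K q ≤ K₀ := fun q => single_le_sum (fun j _ => hK0 j) (mem_univ q)
  have hK₀0 : 0 ≤ K₀ := sum_nonneg fun j _ => hK0 j
  set D₀ : ℕ := ∑ q, D q with hD₀
  have hDq : ∀ q, D q ≤ D₀ := fun q => single_le_sum (fun _ _ => Nat.zero_le _) (mem_univ q)
  set A : ℕ := 3 * D₀ + 4 with hA
  -- rough numbers
  obtain ⟨c₂, hc₂, y₀, hy₀, hrough⟩ := Pool.Agent.W154.PV.rough_lowerD Δ (2 * C₀) hΔ1
  obtain ⟨c, hc, X₀, hcov⟩ := Pool.Agent.W154.PV.covering_hitD Δ (min c₂ 1 / A) hΔ1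
    (div_pos (lt_min hc₂ one_pos) (by rw [hA]; positivity))
  choose x₀ hx₀ using fun i => growth (f i) (hd i) (hl i)
  obtain ⟨x₁, hx₁⟩ : ∃ x₁ : ℝ, ∀ i, (x₀ i : ℝ) ≤ x₁ :=
    ⟨∑ i, |(x₀ i : ℝ)|, fun i => (le_abs_self _).trans
      (single_le_sum (f := fun i => |(x₀ i : ℝ)|) (fun _ _ => abs_nonneg _) (mem_univ i))⟩
  set n : ℝ := (Fintype.card ι : ℝ) with hn
  have hn1 : 1 ≤ n := by
    have : 1 ≤ Fintype.card ι := Fintype.card_pos
    rw [hn]
    exact_mod_cast this
  set c' : ℝ := c / (4 * n * Real.exp C₀) with hc'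
  have hc'0 : 0 < c' := by positivity
  refine ⟨c', hc'0, ?_⟩
  -- largeness
  have t1 : Tendsto (fun Y : ℝ => Real.log Y) atTop atTop := Real.tendsto_log_atTop
  have t2 : Tendsto (fun Y : ℝ => Real.log (Real.log Y)) atTop atTop := t1.comp t1
  have key : ∀ᶠ Y : ℝ in atTop, X₀ ≤ Y ∧ 1 ≤ Y ∧ x₁ ≤ Y ∧ (y₀ ≤ Real.log Y ∧
      K₀ + 1 ≤ Real.log Y ∧ (B₀ : ℝ) ≤ Real.log Y ∧ 10000 ≤ Real.log Y) ∧
      (10 * Real.log Δ ≤ Real.log (Real.log Y) ∧ 10 ≤ Real.log (Real.log Y)) ∧
      1 ≤ c' * Real.log (Real.log Y) ∧ c' * Real.log (Real.log Y) ≤ Real.log Y ∧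
      (Real.log Y) ^ 2 ≤ Y / 4 := by
    have e1 : ∀ᶠ Y : ℝ in atTop, c' * Real.log (Real.log Y) ≤ Real.log Y := by
      have h1 : ∀ᶠ t : ℝ in atTop, c' * Real.log t ≤ t := by
        have h2 := Real.isLittleO_log_id_atTop.def (show (0:ℝ) < 1 / c' by positivity)
        filter_upwards [h2, eventually_ge_atTop (1:ℝ)] with t ht ht1
        rw [Real.norm_eq_abs, abs_of_nonneg (Real.log_nonneg ht1), Real.norm_eq_abs] at ht
        simp only [id] at ht
        rw [abs_of_nonneg (by linarith), div_mul_eq_mul_div, one_mul, le_div_iff₀ hc'0] at ht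
        linarith
      exact t1.eventually h1
    have e2 : ∀ᶠ Y : ℝ in atTop, (Real.log Y) ^ 2 ≤ Y / 4 := by
      have h1 : (fun Y : ℝ => (Real.log Y) ^ (2:ℝ)) =o[atTop] (fun Y : ℝ => Y ^ (1 : ℝ)) :=
        isLittleO_log_rpow_rpow_atTop 2 (by norm_num)
      filter_upwards [h1.def (show (0:ℝ) < 1 / 4 by norm_num), eventually_ge_atTop (1:ℝ)]
        with Y hY hY1
      have hlog := Real.log_nonneg hY1
      rw [Real.norm_eq_abs, Real.norm_eq_abs, abs_of_nonneg (Real.rpow_nonneg hlog _),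
        Real.rpow_one, abs_of_nonneg (by linarith), Real.rpow_two] at hY
      linarith
    filter_upwards [eventually_ge_atTop X₀, eventually_ge_atTop (1:ℝ),
      eventually_ge_atTop x₁, t1.eventually_ge_atTop y₀, t1.eventually_ge_atTop (K₀ + 1),
      t1.eventually_ge_atTop (B₀ : ℝ), t1.eventually_ge_atTop (10000 : ℝ),
      t2.eventually_ge_atTop (10 * Real.log Δ),
      t2.eventually_ge_atTop (1 / c'), e1, e2, t2.eventually_ge_atTop (10 : ℝ)]
      with Y a1 a2 a3 a4 a5 a6 a7 a8 a9 a10 a11 a12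
    refine ⟨a1, a2, a3, ⟨a4, a5, a6, a7⟩, ⟨a8, a12⟩, ?_, a10, a11⟩
    rw [div_le_iff₀ hc'0] at a9
    linarith
  obtain ⟨Y₀, hY₀⟩ := eventually_atTop.mp key
  refine ⟨Y₀, fun Y hY M hMY => ?_⟩
  obtain ⟨a1, a2, a3, ⟨a4, a5, a6, a7⟩, ⟨a8, a12⟩, a9, a10, a11⟩ := hY₀ Y hY
  have hY0 : 0 < Y := by linarith
  set L : ℝ := Real.log Y with hL
  set l : ℝ := Real.log L with hll
  have hLpos : 0 < L := by linarith
  have hL1 : 1 ≤ L := by linarith
  have hYexp : Y = Real.exp L := (Real.exp_log hY0).symm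
  have hYr : ∀ s : ℝ, Y ^ s = Real.exp (s * L) := by
    intro s
    rw [hYexp, ← Real.exp_mul, mul_comm]
  have hl0 : 0 < l := by linarith
  -- the length
  set H : ℕ := ⌊c' * L * l⌋₊ with hH
  have hcLl : 0 ≤ c' * L * l := by positivity
  have hH1 : (H : ℝ) ≤ c' * L * l := Nat.floor_le hcLl
  have hcLl2 : c' * L * l ≤ L ^ 2 := by
    have : c' * L * l = L * (c' * l) := by ring
    rw [this, sq]
    exact mul_le_mul_of_nonneg_left a10 hLpos.le
  have hcLl1 : 1 ≤ c' * L * l := by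
    have h1 : c' * L * l = L * (c' * l) := by ring
    rw [h1]
    calc (1 : ℝ) = 1 * 1 := by ring
      _ ≤ L * (c' * l) := mul_le_mul hL1 a9 (by norm_num) hLpos.le
  -- the threshold
  set y₁ : ℝ := L ^ A with hy₁
  have hL3y : L ^ 3 ≤ y₁ := pow_le_pow_right₀ hL1 (by omega)
  have hLy : L ≤ y₁ := le_self_pow₀ hL1 (by omega)
  have hy₁0 : 0 ≤ y₁ := by positivity
  have hlogy₁ : Real.log y₁ = A * l := by rw [hy₁, Real.log_pow]
  -- small primes
  set w : ℝ := 1 / 100 * L with hw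
  have hw0 : 0 ≤ w := by positivity
  have hw' : w = L / 100 := by rw [hw]; ring
  have hlogw : l / 2 ≤ Real.log w := by
    rw [hw', Real.log_div hLpos.ne' (by norm_num)]
    have h1 : Real.log 100 ≤ 5 := by
      rw [Real.log_le_iff_le_exp (by norm_num)]
      have h2 : (2.7 : ℝ) ≤ Real.exp 1 := by have := Real.exp_one_gt_d9; linarith
      have h3 : Real.exp 5 = (Real.exp 1) ^ 5 := by rw [← Real.exp_nat_mul]; norm_num
      rw [h3]
      calc (100 : ℝ) ≤ 2.7 ^ 5 := by norm_num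
        _ ≤ (Real.exp 1) ^ 5 := pow_le_pow_left₀ (by norm_num) h2 5
    linarith
  have hlogw0 : 0 < Real.log w := by linarith
  have hw3 : 3 ≤ w := by rw [hw']; linarith
  set 𝒢 : Finset ℤ[X] := Fam f H with h𝒢
  obtain ⟨r, hr⟩ := class_choice' 0 le_rfl zero_le_one 𝒢 (PR w) (fun p hp => PR_prime hp)
  set Rs : Finset ℤ[X] := 𝒢.filter (fun G => ∀ p ∈ PR w, ¬ (p : ℤ) ∣ G.eval r) with hRs
  set W : ℕ := WW w with hW
  have hW1 : 1 ≤ W := WW_pos w
  have hWle : (W : ℝ) ≤ Real.exp (L / 50) := by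
    rw [hW, hw']
    exact WW_le hLpos.le
  have hWR : (0:ℝ) < W := by exact_mod_cast hW1
  -- survivors
  have hprodi : ∀ i, ∏ p ∈ PR w, mphi 0 p (f i) ≤ Real.exp C₀ * (2 / l) := by
    intro i
    have h1 : ∏ p ∈ PR w, mphi 0 p (f i) =
        ∏ p ∈ PR w, (1 - (Pool.Agent.H474R2.PG.rho (f i) p : ℝ) / (p : ℝ)) := by
      apply prod_congr rfl
      intro p _
      unfold mphi
      ring
    rw [h1]
    refine (prod_le_exp (f i) w).trans ?_
    have h2 := (abs_le.1 (hM i w hw3)).1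
    have h3 := hCi i
    calc Real.exp (-(Sg (Pool.Agent.H474R2.PG.rho (f i)) w)) ≤
          Real.exp (C₀ - Real.log (Real.log w)) := Real.exp_le_exp.mpr (by linarith)
      _ = Real.exp C₀ / Real.log w := by rw [Real.exp_sub, Real.exp_log hlogw0]
      _ ≤ Real.exp C₀ / (l / 2) :=
          div_le_div_of_nonneg_left (Real.exp_pos _).le (by positivity) hlogw
      _ = Real.exp C₀ * (2 / l) := by field_simp
  have hmphi0 : ∀ (G : ℤ[X]), 0 ≤ ∏ p ∈ PR w, mphi 0 p G := fun G =>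
    prod_nonneg fun p hp => mphi_nonneg le_rfl zero_le_one (PR_prime hp) G
  have hsum𝒢 : ∑ G ∈ 𝒢, ∏ p ∈ PR w, mphi 0 p G ≤ n * (H + 1) * (Real.exp C₀ * (2 / l)) := by
    calc ∑ G ∈ 𝒢, ∏ p ∈ PR w, mphi 0 p G ≤
          ∑ q ∈ (univ : Finset ι) ×ˢ range (H + 1),
            ∏ p ∈ PR w, mphi 0 p ((f q.1).comp (X + C ((q.2 : ℕ) : ℤ))) := by
          rw [h𝒢]
          unfold Fam
          exact sum_image_le_of_nonneg (fun G _ => hmphi0 G)
      _ ≤ ∑ q ∈ (univ : Finset ι) ×ˢ range (H + 1), Real.exp C₀ * (2 / l) := by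
          apply sum_le_sum
          intro q _
          refine le_trans (le_of_eq ?_) (hprodi q.1)
          apply prod_congr rfl
          intro p hp
          unfold mphi
          rw [rho_comp _ _ (PR_prime hp)]
      _ = n * (H + 1) * (Real.exp C₀ * (2 / l)) := by
          rw [sum_const, card_product, card_range, nsmul_eq_mul, card_univ]
          push_cast
          ring
  have hcard : (Rs.card : ℝ) ≤ c * L := by
    have h1 : (Rs.card : ℝ) ≤
        ∑ G ∈ 𝒢, (0 : ℝ) ^ ((PR w).filter (fun p : ℕ => (p : ℤ) ∣ G.eval r)).card := by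
      rw [hRs, card_filter]
      push_cast
      apply sum_le_sum
      intro G _
      split_ifs with hG
      · have h2 : (PR w).filter (fun p : ℕ => (p : ℤ) ∣ G.eval r) = ∅ := by
          rw [filter_eq_empty_iff]
          exact fun p hp => hG p hp
        rw [h2, card_empty, pow_zero]
      · exact pow_nonneg le_rfl _
    have h2 := h1.trans (hr.trans hsum𝒢)
    have h3 : (H : ℝ) + 1 ≤ 2 * (c' * L * l) := by linarith
    have hn0 : 0 < n := by linarith
    calc (Rs.card : ℝ) ≤ n * (H + 1) * (Real.exp C₀ * (2 / l)) := h2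
      _ ≤ n * (2 * (c' * L * l)) * (Real.exp C₀ * (2 / l)) := by
          apply mul_le_mul_of_nonneg_right _ (by positivity)
          exact mul_le_mul_of_nonneg_left h3 hn0.le
      _ = c * L := by
          rw [hc']
          field_simp
          ring
  -- the set
  set B' : ℤ := M + ⌊Y / 2⌋ with hB'
  have hfl1 : Y / 2 - 1 < (⌊Y / 2⌋ : ℝ) := Int.sub_one_lt_floor _
  have hfl2 : (⌊Y / 2⌋ : ℝ) ≤ Y / 2 := Int.floor_le _
  have hY4 : 4 ≤ Y := by nlinarith
  have hMB : M ≤ B' := by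
    rw [hB']
    have : (0:ℤ) ≤ ⌊Y / 2⌋ := Int.floor_nonneg.mpr (by linarith)
    linarith
  set 𝒜 : Finset ℤ := (Finset.Ioc M B').filter (fun a : ℤ => (W : ℤ) ∣ a - r) with h𝒜
  set N : ℝ := ((B' : ℝ) - M) / W with hN
  have hBM : Y / 4 ≤ (B' : ℝ) - M := by
    rw [hB']
    push_cast
    linarith
  have hNge : Y ^ (1 / 2 : ℝ) ≤ N := by
    rw [hN, le_div_iff₀ hWR]
    refine le_trans ?_ hBM
    rw [hYr]
    calc Real.exp (1 / 2 * L) * W ≤ Real.exp (1 / 2 * L) * Real.exp (L / 50) :=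
          mul_le_mul_of_nonneg_left hWle (Real.exp_pos _).le
      _ = Real.exp (26 / 50 * L) := by rw [← Real.exp_add]; congr 1; ring
      _ ≤ Y / 4 := by
          have h1 : Y = Real.exp (26 / 50 * L) * Real.exp (24 / 50 * L) := by
            rw [← Real.exp_add, hYexp]; congr 1; ring
          have h2 : 4 ≤ Real.exp (24 / 50 * L) := by
            have := Real.add_one_le_exp (24 / 50 * L)
            linarith
          have h3 := Real.exp_pos (26 / 50 * L)
          rw [h1]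
          nlinarith
  -- conclusion for a suitable `a`
  have hfin : ∀ a ∈ 𝒜, (∀ G ∈ Rs, ∃ p : ℕ, p.Prime ∧ (p : ℝ) ≤ Y ^ (1 / 10 : ℝ) ∧
      (p : ℤ) ∣ G.eval a) → ∃ x : ℤ, M < x ∧
      (x : ℝ) + c' * L * l ≤ M + Y ∧ ∀ k : ℕ, (k : ℝ) ≤ c' * L * l → ∀ i,
          ∃ p : ℕ, p.Prime ∧ (p : ℝ) ≤ Y ^ (1 / 10 : ℝ) ∧ (p : ℤ) ∣ (f i).eval (x + (k : ℤ)) ∧
            (p : ℤ) < (f i).eval (x + (k : ℤ)) := by
    intro a ha hcovd
    rw [h𝒜, Finset.mem_filter, Finset.mem_Ioc] at ha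
    obtain ⟨⟨ha1, ha2⟩, ha3⟩ := ha
    refine ⟨a, ha1, ?_, ?_⟩
    · have h1 : (a : ℝ) ≤ M + Y / 2 := by
        have : (a : ℝ) ≤ (B' : ℝ) := by exact_mod_cast ha2
        rw [hB'] at this
        push_cast at this
        linarith
      linarith
    · intro k hk i
      have hkH : k ≤ H := Nat.le_floor hk
      set G : ℤ[X] := (f i).comp (X + C (k : ℤ)) with hG
      have hGe : ∀ b : ℤ, G.eval b = (f i).eval (b + (k : ℤ)) := by
        intro b
        rw [hG, eval_comp]
        simp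
      have hG𝒢 : G ∈ 𝒢 := by
        rw [h𝒢, mem_Fam]
        exact ⟨i, k, hkH, rfl⟩
      have hex : ∃ p : ℕ, p.Prime ∧ (p : ℝ) ≤ Y ^ (1 / 10 : ℝ) ∧
          (p : ℤ) ∣ (f i).eval (a + (k : ℤ)) := by
        by_cases hkR : G ∈ Rs
        · obtain ⟨p, hp, hpY, hpd⟩ := hcovd G hkR
          rw [hGe] at hpd
          exact ⟨p, hp, hpY, hpd⟩
        · rw [hRs, Finset.mem_filter, not_and] at hkR
          have h1 := hkR hG𝒢
          push Not at h1
          obtain ⟨p, hp, hpd⟩ := h1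
          refine ⟨p, PR_prime hp, ?_, ?_⟩
          · have h2 := PR_le hw0 hp
            have h3 : w ≤ Y ^ (1 / 10 : ℝ) := by
              rw [hYr, hw]
              have := Real.add_one_le_exp (1 / 10 * L)
              linarith
            linarith
          · have h2 : (p : ℤ) ∣ a - r := by
              refine dvd_trans ?_ ha3
              have : p ∣ W := by
                rw [hW]
                exact Finset.dvd_prod_of_mem _ hp
              exact_mod_cast this
            rw [← hGe]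
            exact (eval_dvd_congr G p a r h2).2 hpd
      obtain ⟨p, hp, hpY, hpd⟩ := hex
      refine ⟨p, hp, hpY, hpd, ?_⟩
      have h1 : (Y : ℝ) ≤ ((a + (k : ℤ) : ℤ) : ℝ) := by
        push_cast
        have h2 : (M : ℝ) < a := by exact_mod_cast ha1
        have h3 : (0:ℝ) ≤ k := Nat.cast_nonneg k
        linarith
      have h2 : x₀ i ≤ a + (k : ℤ) := by
        have : (x₀ i : ℝ) ≤ ((a + (k : ℤ) : ℤ) : ℝ) := by linarith [hx₁ i]
        exact_mod_cast this
      have h3 := hx₀ i _ h2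
      have h4 : ((a + (k : ℤ) : ℤ) : ℝ) ≤ 2 * (((f i).eval (a + (k : ℤ)) : ℤ) : ℝ) := by
        exact_mod_cast h3
      have h5 : (p : ℝ) < Y / 2 := by
        refine lt_of_le_of_lt hpY ?_
        rw [hYr]
        have e1 : Y = Real.exp (1 / 10 * L) * Real.exp (9 / 10 * L) := by
          rw [← Real.exp_add, hYexp]; congr 1; ring
        have e2 : 4 ≤ Real.exp (9 / 10 * L) := by
          have := Real.add_one_le_exp (9 / 10 * L)
          linarith
        have e3 := Real.exp_pos (1 / 10 * L)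
        rw [e1]
        nlinarith
      have h6 : (p : ℝ) < (((f i).eval (a + (k : ℤ)) : ℤ) : ℝ) := by linarith
      exact_mod_cast h6
  have h𝒜ne : 𝒜.Nonempty := by
    have h1 := Pool.Agent.H256R2.SC.count_ap M B' hMB W hW1 r
    rw [← h𝒜] at h1
    rw [← Finset.card_pos]
    have h2 : (1:ℝ) < N := by
      refine lt_of_lt_of_le ?_ hNge
      rw [hYr]
      exact Real.one_lt_exp_iff.mpr (by linarith)
    have h3 := (abs_le.mp h1).1
    rw [← hN] at h3
    have : (0:ℝ) < (𝒜.card : ℝ) := by linarith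
    exact_mod_cast this
  rcases Rs.eq_empty_or_nonempty with hemp | hne
  · obtain ⟨a, ha⟩ := h𝒜ne
    exact hfin a ha (fun G hG => by rw [hemp] at hG; exact absurd hG (Finset.notMem_empty G))
  · have : Nonempty (↥Rs) := hne.to_subtype
    -- members of the family
    have hmemG : ∀ G : ↥Rs, ∃ i : ι, ∃ k : ℕ, k ≤ H ∧ (G : ℤ[X]) = (f i).comp (X + C (k : ℤ)) := by
      intro G
      have h1 := (Finset.mem_filter.1 G.2).1
      rw [h𝒢, mem_Fam] at h1
      exact h1
    have hrhoG : ∀ (G : ↥Rs) (p : ℕ), p.Prime → y₁ < (p : ℝ) →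
        (Pool.Agent.H474R2.PG.rho (G : ℤ[X]) p : ℝ) ≤ Δ := by
      intro G p hp hpy
      obtain ⟨i, k, -, hG⟩ := hmemG G
      rw [hG, rho_comp _ _ hp]
      have h1 : B i < p := by
        have h2 : (B i : ℝ) ≤ B₀ := by exact_mod_cast hBi i
        have : (B i : ℝ) < p := by linarith
        exact_mod_cast this
      have h2 : Pool.Agent.H474R2.PG.rho (f i) p ≤ Δn := (hB i p hp h1).trans (hΔi i)
      rw [hΔ]
      exact_mod_cast h2
    set hit : ℕ → ℤ → (↥Rs) → Prop := fun p a G => y₁ < (p : ℝ) ∧ (p : ℤ) ∣ (G : ℤ[X]).eval a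
      with hhit
    have huniq : ∀ p : ℕ, p.Prime → L ^ 3 < p → ∀ a (G G' : ↥Rs),
        hit p a G → hit p a G' → G = G' := by
      intro p hp _ a G G' h1 h2
      by_contra hGG
      obtain ⟨i, k, hk, hG⟩ := hmemG G
      obtain ⟨j, k', hk', hG'⟩ := hmemG G'
      obtain ⟨hpy, hd1⟩ := h1
      obtain ⟨-, hd2⟩ := h2
      rw [hG, eval_comp] at hd1
      rw [hG', eval_comp] at hd2
      simp only [eval_add, eval_X, eval_C] at hd1 hd2
      have hneq : f i ≠ (f j).comp (X + C ((k' : ℤ) - k)) := by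
        intro he
        apply hGG
        apply Subtype.ext
        rw [hG, hG', he, comp_shift]
      have h3 := hcoll (i, j) ((k' : ℤ) - k) hneq p hp (a + k) hd1 (by
        have : a + (k : ℤ) + ((k' : ℤ) - k) = a + k' := by ring
        rw [this]
        exact hd2)
      have h4 : |(((k' : ℤ) - k : ℤ) : ℝ)| ≤ H := by
        push_cast
        rw [abs_le]
        have e1 : (k : ℝ) ≤ H := by exact_mod_cast hk
        have e2 : (k' : ℝ) ≤ H := by exact_mod_cast hk'
        have e3 : (0 : ℝ) ≤ k := Nat.cast_nonneg _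
        have e4 : (0 : ℝ) ≤ k' := Nat.cast_nonneg _
        constructor <;> linarith
      have h5 : 1 + |(((k' : ℤ) - k : ℤ) : ℝ)| ≤ L ^ 3 := by
        have e1 : (H : ℝ) ≤ L ^ 2 := hH1.trans hcLl2
        have e2 : 2 * L ^ 2 ≤ L ^ 3 := by
          calc 2 * L ^ 2 ≤ L * L ^ 2 := mul_le_mul_of_nonneg_right (by linarith) (sq_nonneg L)
            _ = L ^ 3 := by ring
        have e3 : 1 ≤ L ^ 2 := one_le_pow₀ hL1
        linarith
      have h6 : K (i, j) * (1 + |(((k' : ℤ) - k : ℤ) : ℝ)|) ^ D (i, j) ≤ y₁ := by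
        have e1 : (1 : ℝ) ≤ L ^ 3 := one_le_pow₀ hL1
        calc K (i, j) * (1 + |(((k' : ℤ) - k : ℤ) : ℝ)|) ^ D (i, j) ≤
              L * (L ^ 3) ^ D (i, j) := by
              apply mul_le_mul _ _ (by positivity) hLpos.le
              · linarith [hKq (i, j)]
              · exact pow_le_pow_left₀ (by positivity) h5 _
          _ ≤ L * (L ^ 3) ^ D₀ :=
              mul_le_mul_of_nonneg_left (pow_le_pow_right₀ e1 (hDq (i, j))) hLpos.le
          _ = L ^ (3 * D₀ + 1) := by rw [← pow_mul]; ring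
          _ ≤ y₁ := pow_le_pow_right₀ hL1 (by omega)
      linarith
    obtain ⟨a, ha, hac⟩ := hcov Y a1 (EX y₁) (↥Rs) (by rw [Fintype.card_coe]; exact hcard) hit
      (fun p G => gd y₁ p (G : ℤ[X]))
      (by
        intro p G
        refine ⟨gd_nonneg _ _ _, ?_⟩
        unfold gd
        split_ifs with h1
        · exact div_le_div_of_nonneg_right (hrhoG G p h1.2 h1.1) (Nat.cast_nonneg _)
        · positivity)
      huniq
      (by
        intro G z x hx hxz hz
        rw [SP_eq hy₁0 hL3y]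
        obtain ⟨i, k, -, hG⟩ := hmemG G
        have hAR : (0 : ℝ) < A := by rw [hA]; positivity
        have hx0 : 0 < x := lt_of_lt_of_le (by positivity) hx
        have hsum0 : 0 ≤ ∑ s ∈ (SP y₁ z (EX y₁)).powerset.filter
            (fun s : Finset ℕ => s.Nonempty ∧ ∏ p ∈ s, (p : ℝ) ≤ x),
            ∏ p ∈ s, gd y₁ p (G : ℤ[X]) :=
          sum_nonneg fun s _ => prod_nonneg fun p _ => gd_nonneg _ _ _
        by_cases hxy : y₁ ≤ x
        · have h1 := hrough y₁ z (EX y₁) (fun p => gd y₁ p (G : ℤ[X])) (by linarith)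
            (by
              intro p
              refine ⟨gd_nonneg _ _ _, ?_⟩
              unfold gd
              split_ifs with h1
              · exact div_le_div_of_nonneg_right (hrhoG G p h1.2 h1.1) (Nat.cast_nonneg _)
              · positivity)
            (by
              intro v hv1 hv2
              have e1 : ∑ p ∈ SP y₁ v (EX y₁), gd y₁ p (G : ℤ[X]) =
                  Sg (Pool.Agent.H474R2.PG.rho (f i)) v -
                    Sg (Pool.Agent.H474R2.PG.rho (f i)) y₁ := by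
                rw [sum_gd hy₁0 hv1, hG]
                congr 1
                · unfold Sg
                  apply sum_congr rfl
                  intro p hp
                  rw [rho_comp _ _ (PR_prime hp)]
                · unfold Sg
                  apply sum_congr rfl
                  intro p hp
                  rw [rho_comp _ _ (PR_prime hp)]
              rw [e1]
              have e2 := (abs_le.1 (hM i v (by linarith))).1
              have e3 := (abs_le.1 (hM i y₁ (by linarith))).2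
              have e4 := hCi i
              linarith) x hxy hxz
          refine le_trans ?_ h1
          rw [hlogy₁]
          have hlx : 0 ≤ Real.log x := Real.log_nonneg (by linarith)
          have e5 : min c₂ 1 / A * Real.log x / l = min c₂ 1 * Real.log x / (A * l) := by
            field_simp
          rw [e5]
          have e6 : min c₂ 1 * Real.log x / (A * l) ≤ c₂ * Real.log x / (A * l) := by
            apply div_le_div_of_nonneg_right _ (by positivity)
            exact mul_le_mul_of_nonneg_right (min_le_left _ _) hlx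
          linarith
        · push Not at hxy
          have h1 : Real.log x ≤ A * l := by
            rw [← hlogy₁]
            exact Real.log_le_log hx0 hxy.le
          have h2 : min c₂ 1 / A * Real.log x / l ≤ 1 := by
            rw [div_le_one hl0]
            have e7 : min c₂ 1 / A ≤ 1 / A :=
              div_le_div_of_nonneg_right (min_le_right _ _) hAR.le
            have hlx : 0 ≤ Real.log x := Real.log_nonneg (by
              have e8 : (1 : ℝ) ≤ L ^ 3 := one_le_pow₀ hL1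
              linarith)
            calc min c₂ 1 / A * Real.log x ≤ 1 / A * (A * l) :=
                  mul_le_mul e7 h1 hlx (by positivity)
              _ = l := by field_simp
          linarith)
      𝒜 N (Real.exp (1 / 10 * L)) hNge (Real.exp_pos _).le (by rw [hYr])
      (by
        intro T s hTX hT
        have hTy : ∀ p ∈ T, p.Prime ∧ y₁ < (p : ℝ) := by
          intro p hp
          obtain ⟨h1, -, h3⟩ := hT p hp
          rw [mem_EX hy₁0] at h3
          exact ⟨h1, not_le.1 h3⟩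
        have h1 := count_class' (fun p => ((s p : ↥Rs) : ℤ[X])) M B' hMB W hW1 r T
          (fun p hp => ⟨(hTy p hp).1,
          PR_not_dvd hw0 (hTy p hp).1 (by
            have e1 := (hTy p hp).2
            rw [hw]
            linarith)⟩)
        have h2 : 𝒜.filter (fun a => ∀ p ∈ T, hit p a (s p)) =
            (Finset.Ioc M B').filter (fun a : ℤ => (W : ℤ) ∣ a - r ∧
              ∀ p ∈ T, (p : ℤ) ∣ ((s p : ↥Rs) : ℤ[X]).eval a) := by
          rw [h𝒜, Finset.filter_filter]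
          apply filter_congr
          intro a _
          constructor
          · rintro ⟨h1, h2⟩
            exact ⟨h1, fun p hp => (h2 p hp).2⟩
          · rintro ⟨h1, h2⟩
            exact ⟨h1, fun p hp => ⟨(hTy p hp).2, h2 p hp⟩⟩
        have h2' : ∏ p ∈ T, gd y₁ p ((s p : ↥Rs) : ℤ[X]) =
            ∏ p ∈ T, (Pool.Agent.H474R2.PG.rho ((s p : ↥Rs) : ℤ[X]) p : ℝ) / (p : ℝ) := by
          apply prod_congr rfl
          intro p hp
          unfold gd
          rw [if_pos ⟨(hTy p hp).2, (hTy p hp).1⟩]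
        rw [hYr] at hTX
        have h3 := h1.trans (err_le' Δ hΔ1 L (by linarith) a8 T
          (fun p => ((s p : ↥Rs) : ℤ[X])) (fun p hp => ⟨by linarith [(hTy p hp).2],
            hrhoG (s p) p (hTy p hp).1 (hTy p hp).2⟩) hTX)
        rw [h2']
        rw [← h2, ← hN] at h3
        refine le_trans (le_of_eq ?_) h3
        congr!)
    exact hfin a ha (fun G hG => by
      obtain ⟨p, hp, _, hpY, _, _, hpd⟩ := hac ⟨G, hG⟩
      refine ⟨p, hp, ?_, hpd⟩
      refine hpY.trans ?_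
      rw [hYr]
      apply Real.exp_le_exp.mpr
      have h1 : L ^ (1 / 20 : ℝ) ≤ L ^ (1 / 2 : ℝ) :=
        Real.rpow_le_rpow_of_exponent_le hL1 (by norm_num)
      have h2 : L ^ (1 / 2 : ℝ) * L ^ (1 / 2 : ℝ) = L := by
        rw [← Real.rpow_add hLpos]; norm_num
      have h3 : 10 ≤ L ^ (1 / 2 : ℝ) := by
        have h4 : (10 : ℝ) = (100 : ℝ) ^ (1 / 2 : ℝ) := by
          rw [← Real.sqrt_eq_rpow, show (100 : ℝ) = 10 ^ 2 by norm_num,
            Real.sqrt_sq (by norm_num)]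
        rw [h4]
        exact Real.rpow_le_rpow (by norm_num) (by linarith) (by norm_num)
      nlinarith)

end Pool.Agent.K7.H60.SP
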