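import Pool.Agent.K7.H60.SP.Simul
import Pool.Agent.TH877.M2.CovD

/-!
Long strings of consecutive integers at which all the polynomials of a finite family of linear and
quadratic polynomials take values with at least three prime factors.
-/

set_option autoImplicit false
set_option linter.unusedSectionVars false

namespace Pool.Agent.K7.H60.SP

open Polynomial Finset Filter Pool.Agent.H474R2.PG Pool.Agent.H426R3.SQ

open scoped Classical

lemma omega3 {n p q : ℕ} (hp : p.Prime) (hq : q.Prime) (hpq : p ≠ q) (h1 : p ∣ n) (h2 : q ∣ n)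
    (h3 : p * q < n) : 3 ≤ n.primeFactorsList.length := by
  obtain ⟨m, rfl⟩ := Nat.Coprime.mul_dvd_of_dvd_of_dvd ((Nat.coprime_primes hp hq).2 hpq) h1 h2
  have hpq0 : 0 < p * q := Nat.mul_pos hp.pos hq.pos
  have hm : 1 < m := by
    by_contra hcon
    have h4 : m ≤ 1 := by omega
    have h5 : p * q * m ≤ p * q * 1 := Nat.mul_le_mul_left _ h4
    omega
  have hm0 : m ≠ 0 := by omega
  rw [← ArithmeticFunction.cardFactors_apply,
    ArithmeticFunction.cardFactors_mul (by omega) hm0,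
    ArithmeticFunction.cardFactors_mul hp.ne_zero hq.ne_zero,
    ArithmeticFunction.cardFactors_apply_prime hp, ArithmeticFunction.cardFactors_apply_prime hq]
  have h6 : ArithmeticFunction.cardFactors m ≠ 0 := by
    rw [Ne, ArithmeticFunction.cardFactors_eq_zero_iff_eq_zero_or_one]
    omega
  omega

/-- upper bound for the sums over rough numbers -/
lemma rough_upper {y₁ z x : ℝ} (hy : 0 ≤ y₁) (g : ℕ → ℝ) (hg : ∀ p, 0 ≤ g p) :
    ∑ s ∈ (SP y₁ z (EX y₁)).powerset.filter
        (fun s : Finset ℕ => s.Nonempty ∧ ∏ p ∈ s, (p : ℝ) ≤ x), ∏ p ∈ s, g p ≤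
      if y₁ < x then Real.exp (∑ p ∈ SP y₁ x (EX y₁), g p) else 0 := by
  have hmem : ∀ s ∈ (SP y₁ z (EX y₁)).powerset.filter
        (fun s : Finset ℕ => s.Nonempty ∧ ∏ p ∈ s, (p : ℝ) ≤ x),
      ∀ p ∈ s, p.Prime ∧ y₁ < (p : ℝ) ∧ (p : ℝ) ≤ x ∧ p ∉ EX y₁ := by
    intro s hs p hp
    rw [mem_filter, mem_powerset] at hs
    have h1 := hs.1 hp
    unfold SP at h1
    rw [mem_filter] at h1
    refine ⟨h1.2.1, h1.2.2.1, ?_, h1.2.2.2⟩
    refine le_trans ?_ hs.2.2
    rw [← mul_prod_erase s (fun p : ℕ => (p : ℝ)) hp]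
    apply le_mul_of_one_le_right (Nat.cast_nonneg _)
    calc (1 : ℝ) = ∏ q ∈ s.erase p, (1 : ℝ) := by simp
      _ ≤ ∏ q ∈ s.erase p, (q : ℝ) := by
          apply Finset.prod_le_prod (fun _ _ => zero_le_one)
          intro q hq
          have h2 := hs.1 (mem_of_mem_erase hq)
          unfold SP at h2
          rw [mem_filter] at h2
          exact_mod_cast h2.2.1.one_lt.le
  split_ifs with hyx
  · have h0 : ∑ s ∈ (SP y₁ z (EX y₁)).powerset.filter
        (fun s : Finset ℕ => s.Nonempty ∧ ∏ p ∈ s, (p : ℝ) ≤ x), ∏ p ∈ s, g p ≤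
          ∑ s ∈ (SP y₁ x (EX y₁)).powerset, ∏ p ∈ s, g p := by
      apply sum_le_sum_of_subset_of_nonneg
      · intro s hs
        rw [mem_powerset]
        intro p hp
        obtain ⟨h1, h2, h3, h4⟩ := hmem s hs p hp
        unfold SP
        rw [mem_filter, mem_Icc]
        exact ⟨⟨h1.one_lt.le, (Nat.le_floor_iff (hy.trans hyx.le)).2 h3⟩, h1, h2, h4⟩
      · exact fun s _ _ => prod_nonneg fun p _ => hg p
    refine h0.trans ?_
    have h00 : ∑ s ∈ (SP y₁ x (EX y₁)).powerset, ∏ p ∈ s, g p =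
        ∏ p ∈ SP y₁ x (EX y₁), (1 + g p) := (Finset.prod_one_add _).symm
    rw [h00, Real.exp_sum]
    apply Finset.prod_le_prod
    · intro p _
      linarith [hg p]
    · intro p _
      linarith [Real.add_one_le_exp (g p)]
  · apply le_of_eq
    apply sum_eq_zero
    intro s hs
    exfalso
    have h1 := hs
    rw [mem_filter] at h1
    obtain ⟨p, hp⟩ := h1.2.1
    obtain ⟨-, h2, h3, -⟩ := hmem s hs p hp
    exact hyx (lt_of_lt_of_le h2 h3)

/-- **Long strings of simultaneous values with at least three prime factors.** -/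
theorem simul3 {ι : Type} [Fintype ι] [Nonempty ι] (f : ι → ℤ[X]) (hf : ∀ i, Irreducible (f i))
    (hd : ∀ i, 0 < (f i).natDegree) (hd2 : ∀ i, (f i).natDegree ≤ 2)
    (hl : ∀ i, 0 < (f i).leadingCoeff) :
    ∃ c : ℝ, 0 < c ∧ ∃ Y₀ : ℝ, ∀ Y : ℝ, Y₀ ≤ Y → ∀ M : ℤ, Y ≤ M →
      ∃ x : ℤ, M < x ∧ (x : ℝ) + c * Real.log Y * (Real.log (Real.log Y)) ^ (1 / 3 : ℝ) ≤ M + Y ∧
        ∀ k : ℕ, (k : ℝ) ≤ c * Real.log Y * (Real.log (Real.log Y)) ^ (1 / 3 : ℝ) → ∀ i,
          0 < (f i).eval (x + (k : ℤ)) ∧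
          3 ≤ ((f i).eval (x + (k : ℤ))).natAbs.primeFactorsList.length := by
  -- constants
  choose B hB using fun i => rho_le (f i) (hf i).ne_zero
  choose Cm hC0 hM using fun i => Pool.Agent.H474R2.GE.mertens_rho (f i) (hf i) (hd i)
  set B₀ : ℕ := ∑ i, B i with hB₀
  have hBi : ∀ i, B i ≤ B₀ := fun i => single_le_sum (fun _ _ => Nat.zero_le _) (mem_univ i)
  set C₀ : ℝ := ∑ i, Cm i with hC₀
  have hCi : ∀ i, Cm i ≤ C₀ := fun i => single_le_sum (fun j _ => hC0 j) (mem_univ i)
  have hC₀0 : 0 ≤ C₀ := sum_nonneg fun j _ => hC0 j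
  set Δ : ℝ := 2 with hΔ
  have hΔ1 : 1 ≤ Δ := by rw [hΔ]; norm_num
  -- collisions
  choose K hK0 D hcoll using fun q : ι × ι =>
    coll_pair (f q.1) (f q.2) (hf q.1) (hf q.2) (hd q.1) (hl q.1) (hl q.2)
  set K₀ : ℝ := ∑ q, K q with hK₀
  have hKq : ∀ q, K q ≤ K₀ := fun q => single_le_sum (fun j _ => hK0 j) (mem_univ q)
  have hK₀0 : 0 ≤ K₀ := sum_nonneg fun j _ => hK0 j
  set D₀ : ℕ := ∑ q, D q with hD₀
  have hDq : ∀ q, D q ≤ D₀ := fun q => single_le_sum (fun _ _ => Nat.zero_le _) (mem_univ q)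
  set A : ℕ := 3 * D₀ + 4 with hA
  -- rough numbers
  obtain ⟨c₂, hc₂, y₀, hy₀, hrough⟩ := Pool.Agent.W154.PV.rough_lowerD Δ (2 * C₀) hΔ1
  obtain ⟨c, hc, X₀, hcov⟩ := Pool.Agent.TH877.M2.covering_dbl (min c₂ 1 / A) (Real.exp (2 * C₀))
    (div_pos (lt_min hc₂ one_pos) (by rw [hA]; positivity)) (Real.exp_pos _)
  choose x₀ hx₀ using fun i => growth (f i) (hd i) (hl i)
  obtain ⟨x₁, hx₁⟩ : ∃ x₁ : ℝ, ∀ i, (x₀ i : ℝ) ≤ x₁ :=
    ⟨∑ i, |(x₀ i : ℝ)|, fun i => (le_abs_self _).trans
      (single_le_sum (f := fun i => |(x₀ i : ℝ)|) (fun _ _ => abs_nonneg _) (mem_univ i))⟩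
  set n : ℝ := (Fintype.card ι : ℝ) with hn
  have hn1 : 1 ≤ n := by
    have : 1 ≤ Fintype.card ι := Fintype.card_pos
    rw [hn]
    exact_mod_cast this
  set c' : ℝ := c / (8 * n * Real.exp (C₀ + 1)) with hc'
  have hc'0 : 0 < c' := by positivity
  refine ⟨c', hc'0, ?_⟩
  -- largeness
  have t1 : Tendsto (fun Y : ℝ => Real.log Y) atTop atTop := Real.tendsto_log_atTop
  have t2 : Tendsto (fun Y : ℝ => Real.log (Real.log Y)) atTop atTop := t1.comp t1
  have key : ∀ᶠ Y : ℝ in atTop, X₀ ≤ Y ∧ 1 ≤ Y ∧ x₁ ≤ Y ∧ (y₀ ≤ Real.log Y ∧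
      K₀ + 1 ≤ Real.log Y ∧ (B₀ : ℝ) ≤ Real.log Y ∧ 10000 ≤ Real.log Y) ∧
      (10 * Real.log Δ ≤ Real.log (Real.log Y) ∧ 10 ≤ Real.log (Real.log Y) ∧
        1 ≤ Real.log (Real.log (Real.log Y)) ∧
        Real.log (Real.log (Real.log Y)) ≤ (Real.log (Real.log Y)) ^ (2 / 3 : ℝ)) ∧
      1 ≤ c' * Real.log Y ∧
      c' * (Real.log (Real.log Y)) ^ (1 / 3 : ℝ) ≤ Real.log Y ∧
      (Real.log Y) ^ 2 ≤ Y / 4 := by
    have e0 : ∀ᶠ Y : ℝ in atTop,
        Real.log (Real.log (Real.log Y)) ≤ (Real.log (Real.log Y)) ^ (2 / 3 : ℝ) := by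
      have h1 : ∀ᶠ t : ℝ in atTop, Real.log t ≤ t ^ (2 / 3 : ℝ) := by
        have h2 := (isLittleO_log_rpow_atTop (show (0 : ℝ) < 2 / 3 by norm_num)).def
          (show (0:ℝ) < 1 by norm_num)
        filter_upwards [h2, eventually_ge_atTop (1:ℝ)] with t ht ht1
        rw [Real.norm_of_nonneg (Real.log_nonneg ht1),
          Real.norm_of_nonneg (Real.rpow_nonneg (by linarith) _), one_mul] at ht
        exact ht
      exact t2.eventually h1
    have e1 : ∀ᶠ Y : ℝ in atTop, c' * (Real.log (Real.log Y)) ^ (1 / 3 : ℝ) ≤ Real.log Y := by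
      have h1 : ∀ᶠ t : ℝ in atTop, c' * (Real.log t) ^ (1 / 3 : ℝ) ≤ t := by
        have h2 := Real.isLittleO_log_id_atTop.def (show (0:ℝ) < 1 / c' by positivity)
        filter_upwards [h2, eventually_ge_atTop (Real.exp 1)] with t ht ht1
        have ht0 : 0 < t := (Real.exp_pos 1).trans_le ht1
        have hlt : 1 ≤ Real.log t := by
          rw [Real.le_log_iff_exp_le ht0]
          exact ht1
        rw [Real.norm_eq_abs, abs_of_nonneg (by linarith), Real.norm_eq_abs] at ht
        simp only [id] at ht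
        rw [abs_of_nonneg ht0.le, div_mul_eq_mul_div, one_mul, le_div_iff₀ hc'0] at ht
        have h3 : (Real.log t) ^ (1 / 3 : ℝ) ≤ Real.log t := by
          calc (Real.log t) ^ (1 / 3 : ℝ) ≤ (Real.log t) ^ (1 : ℝ) :=
                Real.rpow_le_rpow_of_exponent_le hlt (by norm_num)
            _ = Real.log t := Real.rpow_one _
        have h4 := mul_le_mul_of_nonneg_left h3 hc'0.le
        linarith
      exact t1.eventually h1
    have e2 : ∀ᶠ Y : ℝ in atTop, (Real.log Y) ^ 2 ≤ Y / 4 := by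
      have h1 : (fun Y : ℝ => (Real.log Y) ^ (2:ℝ)) =o[atTop] (fun Y : ℝ => Y ^ (1 : ℝ)) :=
        isLittleO_log_rpow_rpow_atTop 2 (by norm_num)
      filter_upwards [h1.def (show (0:ℝ) < 1 / 4 by norm_num), eventually_ge_atTop (1:ℝ)]
        with Y hY hY1
      have hlog := Real.log_nonneg hY1
      rw [Real.norm_eq_abs, Real.norm_eq_abs, abs_of_nonneg (Real.rpow_nonneg hlog _),
        Real.rpow_one, abs_of_nonneg (by linarith), Real.rpow_two] at hY
      linarith
    filter_upwards [eventually_ge_atTop X₀, eventually_ge_atTop (1:ℝ),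
      eventually_ge_atTop x₁, t1.eventually_ge_atTop y₀, t1.eventually_ge_atTop (K₀ + 1),
      t1.eventually_ge_atTop (B₀ : ℝ), t1.eventually_ge_atTop (10000 : ℝ),
      t2.eventually_ge_atTop (10 * Real.log Δ),
      t1.eventually_ge_atTop (1 / c'), e1, e2, t2.eventually_ge_atTop (10 : ℝ),
      (Real.tendsto_log_atTop.comp t2).eventually_ge_atTop (1 : ℝ), e0]
      with Y a1 a2 a3 a4 a5 a6 a7 a8 a9 a10 a11 a12 a13 a14
    refine ⟨a1, a2, a3, ⟨a4, a5, a6, a7⟩, ⟨a8, a12, a13, a14⟩, ?_, a10, a11⟩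
    rw [div_le_iff₀ hc'0] at a9
    linarith
  obtain ⟨Y₀, hY₀⟩ := eventually_atTop.mp key
  refine ⟨Y₀, fun Y hY M hMY => ?_⟩
  obtain ⟨a1, a2, a3, ⟨a4, a5, a6, a7⟩, ⟨a8, a12, a13, a14⟩, a9, a10, a11⟩ := hY₀ Y hY
  have hY0 : 0 < Y := by linarith
  set L : ℝ := Real.log Y with hL
  set l : ℝ := Real.log L with hll
  have hLpos : 0 < L := by linarith
  have hL1 : 1 ≤ L := by linarith
  have hYexp : Y = Real.exp L := (Real.exp_log hY0).symm
  have hYr : ∀ s : ℝ, Y ^ s = Real.exp (s * L) := by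
    intro s
    rw [hYexp, ← Real.exp_mul, mul_comm]
  have hl0 : 0 < l := by linarith
  -- the length
  set l3 : ℝ := l ^ (1 / 3 : ℝ) with hl3
  have hl30 : 0 < l3 := Real.rpow_pos_of_pos hl0 _
  have hl31 : 1 ≤ l3 := Real.one_le_rpow (by linarith) (by norm_num)
  have hl3c : l3 * l ^ (2 / 3 : ℝ) = l := by
    rw [hl3, ← Real.rpow_add hl0]; norm_num
  set H : ℕ := ⌊c' * L * l3⌋₊ with hH
  have hcLl : 0 ≤ c' * L * l3 := by positivity
  have hH1 : (H : ℝ) ≤ c' * L * l3 := Nat.floor_le hcLl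
  have hcLl2 : c' * L * l3 ≤ L ^ 2 := by
    have : c' * L * l3 = L * (c' * l3) := by ring
    rw [this, sq]
    exact mul_le_mul_of_nonneg_left a10 hLpos.le
  have hcLl1 : 1 ≤ c' * L * l3 := by
    calc (1 : ℝ) = 1 * 1 := by ring
      _ ≤ (c' * L) * l3 := mul_le_mul a9 hl31 (by norm_num) (by positivity)
  -- the threshold
  set y₁ : ℝ := L ^ A with hy₁
  have hL3y : L ^ 3 ≤ y₁ := pow_le_pow_right₀ hL1 (by omega)
  have hLy : L ≤ y₁ := le_self_pow₀ hL1 (by omega)
  have hy₁0 : 0 ≤ y₁ := by positivity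
  have hlogy₁ : Real.log y₁ = A * l := by rw [hy₁, Real.log_pow]
  -- small primes
  set w : ℝ := 1 / 100 * L with hw
  have hw0 : 0 ≤ w := by positivity
  have hw' : w = L / 100 := by rw [hw]; ring
  have hlogw : l / 2 ≤ Real.log w := by
    rw [hw', Real.log_div hLpos.ne' (by norm_num)]
    have h1 : Real.log 100 ≤ 5 := by
      rw [Real.log_le_iff_le_exp (by norm_num)]
      have h2 : (2.7 : ℝ) ≤ Real.exp 1 := by have := Real.exp_one_gt_d9; linarith
      have h3 : Real.exp 5 = (Real.exp 1) ^ 5 := by rw [← Real.exp_nat_mul]; norm_num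
      rw [h3]
      calc (100 : ℝ) ≤ 2.7 ^ 5 := by norm_num
        _ ≤ (Real.exp 1) ^ 5 := pow_le_pow_left₀ (by norm_num) h2 5
    linarith
  have hlogw0 : 0 < Real.log w := by linarith
  have hw3 : 3 ≤ w := by rw [hw']; linarith
  set 𝒢 : Finset ℤ[X] := Fam f H with h𝒢
  set θ : ℝ := 1 / Real.log l with hθ
  have hθ0 : 0 < θ := by positivity
  have hθ1 : θ ≤ 1 := by
    rw [hθ, div_le_one (by linarith)]
    exact a13
  obtain ⟨r, hr⟩ := class_choice' θ hθ0.le hθ1 𝒢 (PR w) (fun p hp => PR_prime hp)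
  set Zs : Finset ℤ[X] := 𝒢.filter
    (fun G => ((PR w).filter (fun p : ℕ => (p : ℤ) ∣ G.eval r)).card = 0) with hZs
  set Rs : Finset ℤ[X] := 𝒢.filter
    (fun G => ((PR w).filter (fun p : ℕ => (p : ℤ) ∣ G.eval r)).card ≤ 1) with hRs
  set W : ℕ := WW w with hW
  have hW1 : 1 ≤ W := WW_pos w
  have hWle : (W : ℝ) ≤ Real.exp (L / 50) := by
    rw [hW, hw']
    exact WW_le hLpos.le
  have hWR : (0:ℝ) < W := by exact_mod_cast hW1
  -- survivors
  have hprodi : ∀ i, ∏ p ∈ PR w, mphi θ p (f i) ≤ Real.exp (C₀ + 1) * (2 / l) := by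
    intro i
    have h1 : ∏ p ∈ PR w, mphi θ p (f i) ≤
        Real.exp (-((1 - θ) * Sg (Pool.Agent.H474R2.PG.rho (f i)) w)) := by
      unfold Sg
      rw [mul_sum, ← sum_neg_distrib, Real.exp_sum]
      apply Finset.prod_le_prod
      · intro p hp
        exact mphi_nonneg hθ0.le hθ1 (PR_prime hp) _
      · intro p _
        unfold mphi
        have := Real.add_one_le_exp (-((1 - θ) * ((Pool.Agent.H474R2.PG.rho (f i) p : ℝ) / p)))
        linarith
    refine h1.trans ?_
    have h2 := (abs_le.1 (hM i w hw3)).1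
    have h3 := hCi i
    have h4 : Real.log (Real.log w) ≤ Real.log l := by
      apply Real.log_le_log hlogw0
      apply Real.log_le_log (by linarith)
      rw [hw']
      linarith
    have h5 : θ * Real.log (Real.log w) ≤ 1 := by
      calc θ * Real.log (Real.log w) ≤ θ * Real.log l := mul_le_mul_of_nonneg_left h4 hθ0.le
        _ = 1 := by rw [hθ]; field_simp
    have h6 : Real.log (Real.log w) - 1 - C₀ ≤
        (1 - θ) * Sg (Pool.Agent.H474R2.PG.rho (f i)) w := by
      have h7 : (1 - θ) * (Real.log (Real.log w) - C₀) ≤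
          (1 - θ) * Sg (Pool.Agent.H474R2.PG.rho (f i)) w :=
        mul_le_mul_of_nonneg_left (by linarith) (by linarith)
      have h8 : 0 ≤ θ * C₀ := by positivity
      linarith
    calc Real.exp (-((1 - θ) * Sg (Pool.Agent.H474R2.PG.rho (f i)) w)) ≤
          Real.exp (C₀ + 1 - Real.log (Real.log w)) := Real.exp_le_exp.mpr (by linarith)
      _ = Real.exp (C₀ + 1) / Real.log w := by rw [Real.exp_sub, Real.exp_log hlogw0]
      _ ≤ Real.exp (C₀ + 1) / (l / 2) :=
          div_le_div_of_nonneg_left (Real.exp_pos _).le (by positivity) hlogw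
      _ = Real.exp (C₀ + 1) * (2 / l) := by field_simp
  have hmphi0 : ∀ (G : ℤ[X]), 0 ≤ ∏ p ∈ PR w, mphi θ p G := fun G =>
    prod_nonneg fun p hp => mphi_nonneg hθ0.le hθ1 (PR_prime hp) G
  have hsum𝒢 : ∑ G ∈ 𝒢, ∏ p ∈ PR w, mphi θ p G ≤
      n * (H + 1) * (Real.exp (C₀ + 1) * (2 / l)) := by
    calc ∑ G ∈ 𝒢, ∏ p ∈ PR w, mphi θ p G ≤
          ∑ q ∈ (univ : Finset ι) ×ˢ range (H + 1),
            ∏ p ∈ PR w, mphi θ p ((f q.1).comp (X + C ((q.2 : ℕ) : ℤ))) := by
          rw [h𝒢]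
          unfold Fam
          exact sum_image_le_of_nonneg (fun G _ => hmphi0 G)
      _ ≤ ∑ q ∈ (univ : Finset ι) ×ˢ range (H + 1), Real.exp (C₀ + 1) * (2 / l) := by
          apply sum_le_sum
          intro q _
          refine le_trans (le_of_eq ?_) (hprodi q.1)
          apply prod_congr rfl
          intro p hp
          unfold mphi
          rw [rho_comp _ _ (PR_prime hp)]
      _ = n * (H + 1) * (Real.exp (C₀ + 1) * (2 / l)) := by
          rw [sum_const, card_product, card_range, nsmul_eq_mul, card_univ]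
          push_cast
          ring
  have htot : (∑ G ∈ 𝒢, θ ^ ((PR w).filter (fun p : ℕ => (p : ℤ) ∣ G.eval r)).card) *
      l ^ (2 / 3 : ℝ) ≤ c * L := by
    have h2 := hr.trans hsum𝒢
    have h3 : (H : ℝ) + 1 ≤ 2 * (c' * L * l3) := by linarith
    have hn0 : 0 < n := by linarith
    have h23 : 0 ≤ l ^ (2 / 3 : ℝ) := Real.rpow_nonneg hl0.le _
    calc (∑ G ∈ 𝒢, θ ^ ((PR w).filter (fun p : ℕ => (p : ℤ) ∣ G.eval r)).card) *
          l ^ (2 / 3 : ℝ) ≤
          n * (H + 1) * (Real.exp (C₀ + 1) * (2 / l)) * l ^ (2 / 3 : ℝ) :=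
          mul_le_mul_of_nonneg_right h2 h23
      _ ≤ n * (2 * (c' * L * l3)) * (Real.exp (C₀ + 1) * (2 / l)) * l ^ (2 / 3 : ℝ) := by
          apply mul_le_mul_of_nonneg_right _ h23
          apply mul_le_mul_of_nonneg_right _ (by positivity)
          exact mul_le_mul_of_nonneg_left h3 hn0.le
      _ = (l3 * l ^ (2 / 3 : ℝ)) / l * (4 * n * c' * Real.exp (C₀ + 1) * L) := by ring
      _ = 4 * n * c' * Real.exp (C₀ + 1) * L := by rw [hl3c, div_self hl0.ne', one_mul]
      _ = c / 2 * L := by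
          rw [hc']
          field_simp
          ring
      _ ≤ c * L := by
          apply mul_le_mul_of_nonneg_right _ hLpos.le
          linarith
  have hZcard : (Zs.card : ℝ) * l ^ (2 / 3 : ℝ) ≤ c * L := by
    refine le_trans (mul_le_mul_of_nonneg_right ?_ (Real.rpow_nonneg hl0.le _)) htot
    rw [hZs, card_filter]
    push_cast
    apply sum_le_sum
    intro G _
    split_ifs with hG
    · rw [hG, pow_zero]
    · exact pow_nonneg hθ0.le _
  have hcard : (Rs.card : ℝ) ≤ c * L := by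
    have h1 : (Rs.card : ℝ) * θ ≤
        ∑ G ∈ 𝒢, θ ^ ((PR w).filter (fun p : ℕ => (p : ℤ) ∣ G.eval r)).card := by
      rw [hRs, card_filter]
      push_cast
      rw [sum_mul]
      apply sum_le_sum
      intro G _
      split_ifs with hG
      · rw [one_mul]
        calc θ = θ ^ 1 := (pow_one θ).symm
          _ ≤ _ := pow_le_pow_of_le_one hθ0.le hθ1 hG
      · rw [zero_mul]
        exact pow_nonneg hθ0.le _
    have h2 : 1 ≤ θ * l ^ (2 / 3 : ℝ) := by
      rw [hθ, one_div_mul_eq_div, le_div_iff₀ (by linarith), one_mul]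
      exact a14
    calc (Rs.card : ℝ) = Rs.card * 1 := (mul_one _).symm
      _ ≤ Rs.card * (θ * l ^ (2 / 3 : ℝ)) := mul_le_mul_of_nonneg_left h2 (Nat.cast_nonneg _)
      _ = (Rs.card * θ) * l ^ (2 / 3 : ℝ) := by ring
      _ ≤ _ := (mul_le_mul_of_nonneg_right h1 (Real.rpow_nonneg hl0.le _)).trans htot
  -- the set
  set B' : ℤ := M + ⌊Y / 2⌋ with hB'
  have hfl1 : Y / 2 - 1 < (⌊Y / 2⌋ : ℝ) := Int.sub_one_lt_floor _
  have hfl2 : (⌊Y / 2⌋ : ℝ) ≤ Y / 2 := Int.floor_le _
  have hY4 : 4 ≤ Y := by nlinarith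
  have hMB : M ≤ B' := by
    rw [hB']
    have : (0:ℤ) ≤ ⌊Y / 2⌋ := Int.floor_nonneg.mpr (by linarith)
    linarith
  set 𝒜 : Finset ℤ := (Finset.Ioc M B').filter (fun a : ℤ => (W : ℤ) ∣ a - r) with h𝒜
  set N : ℝ := ((B' : ℝ) - M) / W with hN
  have hBM : Y / 4 ≤ (B' : ℝ) - M := by
    rw [hB']
    push_cast
    linarith
  have hNge : Y ^ (1 / 2 : ℝ) ≤ N := by
    rw [hN, le_div_iff₀ hWR]
    refine le_trans ?_ hBM
    rw [hYr]
    calc Real.exp (1 / 2 * L) * W ≤ Real.exp (1 / 2 * L) * Real.exp (L / 50) :=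
          mul_le_mul_of_nonneg_left hWle (Real.exp_pos _).le
      _ = Real.exp (26 / 50 * L) := by rw [← Real.exp_add]; congr 1; ring
      _ ≤ Y / 4 := by
          have h1 : Y = Real.exp (26 / 50 * L) * Real.exp (24 / 50 * L) := by
            rw [← Real.exp_add, hYexp]; congr 1; ring
          have h2 : 4 ≤ Real.exp (24 / 50 * L) := by
            have := Real.add_one_le_exp (24 / 50 * L)
            linarith
          have h3 := Real.exp_pos (26 / 50 * L)
          rw [h1]
          nlinarith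
  -- conclusion for a suitable `a`
  have hfin : ∀ a ∈ 𝒜, (∀ G ∈ Rs, ∃ p : ℕ, p.Prime ∧ y₁ < (p : ℝ) ∧
      (p : ℝ) ≤ Y ^ (1 / 10 : ℝ) ∧ (p : ℤ) ∣ G.eval a) →
      (∀ G ∈ Zs, ∃ p q : ℕ, p.Prime ∧ q.Prime ∧ p ≠ q ∧
      (p : ℝ) ≤ Y ^ (1 / 10 : ℝ) ∧ (q : ℝ) ≤ Y ^ (1 / 10 : ℝ) ∧
      (p : ℤ) ∣ G.eval a ∧ (q : ℤ) ∣ G.eval a) → ∃ x : ℤ, M < x ∧
      (x : ℝ) + c' * L * l3 ≤ M + Y ∧ ∀ k : ℕ, (k : ℝ) ≤ c' * L * l3 → ∀ i,
          0 < (f i).eval (x + (k : ℤ)) ∧
          3 ≤ ((f i).eval (x + (k : ℤ))).natAbs.primeFactorsList.length := by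
    intro a ha hcovd hcovz
    rw [h𝒜, Finset.mem_filter, Finset.mem_Ioc] at ha
    obtain ⟨⟨ha1, ha2⟩, ha3⟩ := ha
    refine ⟨a, ha1, ?_, ?_⟩
    · have h1 : (a : ℝ) ≤ M + Y / 2 := by
        have : (a : ℝ) ≤ (B' : ℝ) := by exact_mod_cast ha2
        rw [hB'] at this
        push_cast at this
        linarith
      linarith
    · intro k hk i
      have hkH : k ≤ H := Nat.le_floor hk
      set G : ℤ[X] := (f i).comp (X + C (k : ℤ)) with hG
      have hGe : ∀ b : ℤ, G.eval b = (f i).eval (b + (k : ℤ)) := by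
        intro b
        rw [hG, eval_comp]
        simp
      have hG𝒢 : G ∈ 𝒢 := by
        rw [h𝒢, mem_Fam]
        exact ⟨i, k, hkH, rfl⟩
      have hsm : ∀ p ∈ (PR w).filter (fun p : ℕ => (p : ℤ) ∣ G.eval r),
          p.Prime ∧ (p : ℝ) ≤ y₁ ∧ (p : ℝ) ≤ Y ^ (1 / 10 : ℝ) ∧ (p : ℤ) ∣ G.eval a := by
        intro p hp
        rw [mem_filter] at hp
        have h2 := PR_le hw0 hp.1
        refine ⟨PR_prime hp.1, ?_, ?_, ?_⟩
        · have : w ≤ L := by rw [hw']; linarith
          linarith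
        · have h3 : w ≤ Y ^ (1 / 10 : ℝ) := by
            rw [hYr, hw]
            have := Real.add_one_le_exp (1 / 10 * L)
            linarith
          linarith
        · have h2 : (p : ℤ) ∣ a - r := by
            refine dvd_trans ?_ ha3
            have : p ∣ W := by
              rw [hW]
              exact Finset.dvd_prod_of_mem _ hp.1
            exact_mod_cast this
          exact (eval_dvd_congr G p a r h2).2 hp.2
      have hex : ∃ p q : ℕ, p.Prime ∧ q.Prime ∧ p ≠ q ∧
          (p : ℝ) ≤ Y ^ (1 / 10 : ℝ) ∧ (q : ℝ) ≤ Y ^ (1 / 10 : ℝ) ∧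
          (p : ℤ) ∣ G.eval a ∧ (q : ℤ) ∣ G.eval a := by
        rcases Nat.lt_or_ge 1 ((PR w).filter (fun p : ℕ => (p : ℤ) ∣ G.eval r)).card with h1 | h1
        · obtain ⟨p, hp, q, hq, hpq⟩ := one_lt_card.1 h1
          obtain ⟨p1, -, p3, p4⟩ := hsm p hp
          obtain ⟨q1, -, q3, q4⟩ := hsm q hq
          exact ⟨p, q, p1, q1, hpq, p3, q3, p4, q4⟩
        · have hGR : G ∈ Rs := by
            rw [hRs, mem_filter]
            exact ⟨hG𝒢, h1⟩
          rcases Nat.eq_zero_or_pos
            ((PR w).filter (fun p : ℕ => (p : ℤ) ∣ G.eval r)).card with h2 | h2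
          · exact hcovz G (by rw [hZs, mem_filter]; exact ⟨hG𝒢, h2⟩)
          · obtain ⟨p, hp⟩ := card_pos.1 h2
            obtain ⟨p1, p2, p3, p4⟩ := hsm p hp
            obtain ⟨q, q1, q2, q3, q4⟩ := hcovd G hGR
            refine ⟨p, q, p1, q1, ?_, p3, q3, p4, q4⟩
            rintro rfl
            linarith
      obtain ⟨p, q, hp, hq, hpq, hpY, hqY, hpd, hqd⟩ := hex
      rw [hGe] at hpd hqd
      have h1 : (Y : ℝ) ≤ ((a + (k : ℤ) : ℤ) : ℝ) := by
        push_cast
        have h2 : (M : ℝ) < a := by exact_mod_cast ha1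
        have h3 : (0:ℝ) ≤ k := Nat.cast_nonneg k
        linarith
      have h2 : x₀ i ≤ a + (k : ℤ) := by
        have : (x₀ i : ℝ) ≤ ((a + (k : ℤ) : ℤ) : ℝ) := by linarith [hx₁ i]
        exact_mod_cast this
      have h3 := hx₀ i _ h2
      have h4 : ((a + (k : ℤ) : ℤ) : ℝ) ≤ 2 * (((f i).eval (a + (k : ℤ)) : ℤ) : ℝ) := by
        exact_mod_cast h3
      have h5 : ((p * q : ℕ) : ℝ) < Y / 2 := by
        have e0 : ((p * q : ℕ) : ℝ) ≤ Y ^ (1 / 10 : ℝ) * Y ^ (1 / 10 : ℝ) := by
          push_cast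
          exact mul_le_mul hpY hqY (Nat.cast_nonneg _) (Real.rpow_nonneg hY0.le _)
        refine lt_of_le_of_lt e0 ?_
        rw [hYr, ← Real.exp_add]
        have e1 : Y = Real.exp (1 / 10 * L + 1 / 10 * L) * Real.exp (8 / 10 * L) := by
          rw [← Real.exp_add, hYexp]; congr 1; ring
        have e2 : 4 ≤ Real.exp (8 / 10 * L) := by
          have := Real.add_one_le_exp (8 / 10 * L)
          linarith
        have e3 := Real.exp_pos (1 / 10 * L + 1 / 10 * L)
        rw [e1]
        nlinarith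
      have h6 : ((p * q : ℕ) : ℝ) < (((f i).eval (a + (k : ℤ)) : ℤ) : ℝ) := by linarith
      have h7 : ((p * q : ℕ) : ℤ) < (f i).eval (a + (k : ℤ)) := by exact_mod_cast h6
      have h8 : 0 < (f i).eval (a + (k : ℤ)) := lt_of_le_of_lt (Int.natCast_nonneg _) h7
      refine ⟨h8, ?_⟩
      have h9 : (((f i).eval (a + (k : ℤ))).natAbs : ℤ) = (f i).eval (a + (k : ℤ)) :=
        Int.natAbs_of_nonneg h8.le
      apply omega3 hp hq hpq
      · exact Int.natCast_dvd.1 hpd
      · exact Int.natCast_dvd.1 hqd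
      · rw [← h9] at h7
        exact_mod_cast h7
  have h𝒜ne : 𝒜.Nonempty := by
    have h1 := Pool.Agent.H256R2.SC.count_ap M B' hMB W hW1 r
    rw [← h𝒜] at h1
    rw [← Finset.card_pos]
    have h2 : (1:ℝ) < N := by
      refine lt_of_lt_of_le ?_ hNge
      rw [hYr]
      exact Real.one_lt_exp_iff.mpr (by linarith)
    have h3 := (abs_le.mp h1).1
    rw [← hN] at h3
    have : (0:ℝ) < (𝒜.card : ℝ) := by linarith
    exact_mod_cast this
  rcases Rs.eq_empty_or_nonempty with hemp | hne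
  · obtain ⟨a, ha⟩ := h𝒜ne
    have hempZ : Zs = ∅ := by
      rw [eq_empty_iff_forall_notMem]
      intro G hG
      have h1 : G ∈ Rs := by
        rw [hRs, mem_filter]
        rw [hZs, mem_filter] at hG
        exact ⟨hG.1, by omega⟩
      rw [hemp] at h1
      exact absurd h1 (Finset.notMem_empty G)
    exact hfin a ha (fun G hG => by rw [hemp] at hG; exact absurd hG (Finset.notMem_empty G))
      (fun G hG => by rw [hempZ] at hG; exact absurd hG (Finset.notMem_empty G))
  · have : Nonempty (↥Rs) := hne.to_subtype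
    -- members of the family
    have hmemG : ∀ G : ↥Rs, ∃ i : ι, ∃ k : ℕ, k ≤ H ∧ (G : ℤ[X]) = (f i).comp (X + C (k : ℤ)) := by
      intro G
      have h1 := (Finset.mem_filter.1 G.2).1
      rw [h𝒢, mem_Fam] at h1
      exact h1
    have hrhoG : ∀ (G : ↥Rs) (p : ℕ), p.Prime → y₁ < (p : ℝ) →
        (Pool.Agent.H474R2.PG.rho (G : ℤ[X]) p : ℝ) ≤ Δ := by
      intro G p hp hpy
      obtain ⟨i, k, -, hG⟩ := hmemG G
      rw [hG, rho_comp _ _ hp]
      have h1 : B i < p := by
        have h2 : (B i : ℝ) ≤ B₀ := by exact_mod_cast hBi i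
        have : (B i : ℝ) < p := by linarith
        exact_mod_cast this
      have h2 : Pool.Agent.H474R2.PG.rho (f i) p ≤ 2 := (hB i p hp h1).trans (hd2 i)
      rw [hΔ]
      exact_mod_cast h2
    set hit : ℕ → ℤ → (↥Rs) → Prop := fun p a G => y₁ < (p : ℝ) ∧ (p : ℤ) ∣ (G : ℤ[X]).eval a
      with hhit
    have huniq : ∀ p : ℕ, p.Prime → L ^ 3 < p → ∀ a (G G' : ↥Rs),
        hit p a G → hit p a G' → G = G' := by
      intro p hp _ a G G' h1 h2
      by_contra hGG
      obtain ⟨i, k, hk, hG⟩ := hmemG G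
      obtain ⟨j, k', hk', hG'⟩ := hmemG G'
      obtain ⟨hpy, hd1⟩ := h1
      obtain ⟨-, hd2⟩ := h2
      rw [hG, eval_comp] at hd1
      rw [hG', eval_comp] at hd2
      simp only [eval_add, eval_X, eval_C] at hd1 hd2
      have hneq : f i ≠ (f j).comp (X + C ((k' : ℤ) - k)) := by
        intro he
        apply hGG
        apply Subtype.ext
        rw [hG, hG', he, comp_shift]
      have h3 := hcoll (i, j) ((k' : ℤ) - k) hneq p hp (a + k) hd1 (by
        have : a + (k : ℤ) + ((k' : ℤ) - k) = a + k' := by ring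
        rw [this]
        exact hd2)
      have h4 : |(((k' : ℤ) - k : ℤ) : ℝ)| ≤ H := by
        push_cast
        rw [abs_le]
        have e1 : (k : ℝ) ≤ H := by exact_mod_cast hk
        have e2 : (k' : ℝ) ≤ H := by exact_mod_cast hk'
        have e3 : (0 : ℝ) ≤ k := Nat.cast_nonneg _
        have e4 : (0 : ℝ) ≤ k' := Nat.cast_nonneg _
        constructor <;> linarith
      have h5 : 1 + |(((k' : ℤ) - k : ℤ) : ℝ)| ≤ L ^ 3 := by
        have e1 : (H : ℝ) ≤ L ^ 2 := hH1.trans hcLl2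
        have e2 : 2 * L ^ 2 ≤ L ^ 3 := by
          calc 2 * L ^ 2 ≤ L * L ^ 2 := mul_le_mul_of_nonneg_right (by linarith) (sq_nonneg L)
            _ = L ^ 3 := by ring
        have e3 : 1 ≤ L ^ 2 := one_le_pow₀ hL1
        linarith
      have h6 : K (i, j) * (1 + |(((k' : ℤ) - k : ℤ) : ℝ)|) ^ D (i, j) ≤ y₁ := by
        have e1 : (1 : ℝ) ≤ L ^ 3 := one_le_pow₀ hL1
        calc K (i, j) * (1 + |(((k' : ℤ) - k : ℤ) : ℝ)|) ^ D (i, j) ≤
              L * (L ^ 3) ^ D (i, j) := by
              apply mul_le_mul _ _ (by positivity) hLpos.le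
              · linarith [hKq (i, j)]
              · exact pow_le_pow_left₀ (by positivity) h5 _
          _ ≤ L * (L ^ 3) ^ D₀ :=
              mul_le_mul_of_nonneg_left (pow_le_pow_right₀ e1 (hDq (i, j))) hLpos.le
          _ = L ^ (3 * D₀ + 1) := by rw [← pow_mul]; ring
          _ ≤ y₁ := pow_le_pow_right₀ hL1 (by omega)
      linarith
    obtain ⟨dbl, hdbl⟩ : ∃ dbl : ↥Rs → Prop, ∀ G, dbl G ↔ (G : ℤ[X]) ∈ Zs :=
      ⟨_, fun _ => Iff.rfl⟩
    obtain ⟨a, ha, hac, hacz⟩ := hcov Y a1 (EX y₁) (↥Rs) (by rw [Fintype.card_coe]; exact hcard)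
      dbl
      (by
        refine le_trans (mul_le_mul_of_nonneg_right ?_ (Real.rpow_nonneg hl0.le _)) hZcard
        apply Nat.cast_le.mpr
        apply card_le_card_of_injOn (fun G : ↥Rs => (G : ℤ[X]))
        · intro G hG
          rw [mem_coe, mem_filter] at hG
          exact (hdbl G).1 hG.2
        · intro G _ G' _ h
          exact Subtype.ext h) hit
      (fun p G => gd y₁ p (G : ℤ[X]))
      (by
        intro p G
        refine ⟨gd_nonneg _ _ _, ?_⟩
        unfold gd
        split_ifs with h1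
        · exact div_le_div_of_nonneg_right (hrhoG G p h1.2 h1.1) (Nat.cast_nonneg _)
        · positivity)
      huniq
      (by
        intro G z x hx hxz hz
        rw [SP_eq hy₁0 hL3y]
        obtain ⟨i, k, -, hG⟩ := hmemG G
        have hAR : (0 : ℝ) < A := by rw [hA]; positivity
        have hx0 : 0 < x := lt_of_lt_of_le (by positivity) hx
        have hsum0 : 0 ≤ ∑ s ∈ (SP y₁ z (EX y₁)).powerset.filter
            (fun s : Finset ℕ => s.Nonempty ∧ ∏ p ∈ s, (p : ℝ) ≤ x),
            ∏ p ∈ s, gd y₁ p (G : ℤ[X]) :=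
          sum_nonneg fun s _ => prod_nonneg fun p _ => gd_nonneg _ _ _
        by_cases hxy : y₁ ≤ x
        · have h1 := hrough y₁ z (EX y₁) (fun p => gd y₁ p (G : ℤ[X])) (by linarith)
            (by
              intro p
              refine ⟨gd_nonneg _ _ _, ?_⟩
              unfold gd
              split_ifs with h1
              · exact div_le_div_of_nonneg_right (hrhoG G p h1.2 h1.1) (Nat.cast_nonneg _)
              · positivity)
            (by
              intro v hv1 hv2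
              have e1 : ∑ p ∈ SP y₁ v (EX y₁), gd y₁ p (G : ℤ[X]) =
                  Sg (Pool.Agent.H474R2.PG.rho (f i)) v -
                    Sg (Pool.Agent.H474R2.PG.rho (f i)) y₁ := by
                rw [sum_gd hy₁0 hv1, hG]
                congr 1
                · unfold Sg
                  apply sum_congr rfl
                  intro p hp
                  rw [rho_comp _ _ (PR_prime hp)]
                · unfold Sg
                  apply sum_congr rfl
                  intro p hp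
                  rw [rho_comp _ _ (PR_prime hp)]
              rw [e1]
              have e2 := (abs_le.1 (hM i v (by linarith))).1
              have e3 := (abs_le.1 (hM i y₁ (by linarith))).2
              have e4 := hCi i
              linarith) x hxy hxz
          refine le_trans ?_ h1
          rw [hlogy₁]
          have hlx : 0 ≤ Real.log x := Real.log_nonneg (by linarith)
          have e5 : min c₂ 1 / A * Real.log x / l = min c₂ 1 * Real.log x / (A * l) := by
            field_simp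
          rw [e5]
          have e6 : min c₂ 1 * Real.log x / (A * l) ≤ c₂ * Real.log x / (A * l) := by
            apply div_le_div_of_nonneg_right _ (by positivity)
            exact mul_le_mul_of_nonneg_right (min_le_left _ _) hlx
          linarith
        · push Not at hxy
          have h1 : Real.log x ≤ A * l := by
            rw [← hlogy₁]
            exact Real.log_le_log hx0 hxy.le
          have h2 : min c₂ 1 / A * Real.log x / l ≤ 1 := by
            rw [div_le_one hl0]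
            have e7 : min c₂ 1 / A ≤ 1 / A :=
              div_le_div_of_nonneg_right (min_le_right _ _) hAR.le
            have hlx : 0 ≤ Real.log x := Real.log_nonneg (by
              have e8 : (1 : ℝ) ≤ L ^ 3 := one_le_pow₀ hL1
              linarith)
            calc min c₂ 1 / A * Real.log x ≤ 1 / A * (A * l) :=
                  mul_le_mul e7 h1 hlx (by positivity)
              _ = l := by field_simp
          linarith)
      (by
        intro G _ z x hx hxz hz
        rw [SP_eq hy₁0 hL3y]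
        refine (rough_upper hy₁0 (fun p => gd y₁ p (G : ℤ[X]))
          (fun p => gd_nonneg _ _ _)).trans ?_
        have hlx : 0 ≤ Real.log x := Real.log_nonneg (by
          have e8 : (1 : ℝ) ≤ L ^ 3 := one_le_pow₀ hL1
          linarith)
        split_ifs with hyx
        · obtain ⟨i, k, -, hG⟩ := hmemG G
          have e1 : ∑ p ∈ SP y₁ x (EX y₁), gd y₁ p (G : ℤ[X]) =
              Sg (Pool.Agent.H474R2.PG.rho (f i)) x -
                Sg (Pool.Agent.H474R2.PG.rho (f i)) y₁ := by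
            rw [sum_gd hy₁0 hyx.le, hG]
            congr 1
            · unfold Sg
              apply sum_congr rfl
              intro p hp
              rw [rho_comp _ _ (PR_prime hp)]
            · unfold Sg
              apply sum_congr rfl
              intro p hp
              rw [rho_comp _ _ (PR_prime hp)]
          rw [e1]
          have e2 := (abs_le.1 (hM i x (by linarith))).2
          have e3 := (abs_le.1 (hM i y₁ (by linarith))).1
          have e4 := hCi i
          have hAR : (1 : ℝ) ≤ A := by rw [hA]; push_cast; linarith [(Nat.cast_nonneg D₀ : (0:ℝ) ≤ _)]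
          have hlogy1pos : 0 < Real.log y₁ := by rw [hlogy₁]; positivity
          have hlogxpos : 0 < Real.log x := lt_of_lt_of_le hlogy1pos
            (Real.log_le_log (by linarith) hyx.le)
          calc Real.exp (Sg (Pool.Agent.H474R2.PG.rho (f i)) x -
                Sg (Pool.Agent.H474R2.PG.rho (f i)) y₁) ≤
                Real.exp (2 * C₀ + (Real.log (Real.log x) - Real.log (Real.log y₁))) :=
                Real.exp_le_exp.mpr (by linarith)
            _ = Real.exp (2 * C₀) * (Real.log x / Real.log y₁) := by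
                rw [Real.exp_add, Real.exp_sub, Real.exp_log hlogxpos, Real.exp_log hlogy1pos]
            _ ≤ Real.exp (2 * C₀) * (Real.log x / l) := by
                apply mul_le_mul_of_nonneg_left _ (Real.exp_pos _).le
                apply div_le_div_of_nonneg_left hlx hl0
                rw [hlogy₁]
                exact le_mul_of_one_le_left hl0.le hAR
            _ = Real.exp (2 * C₀) * Real.log x / l := by ring
        · positivity)
      𝒜 N (Real.exp (1 / 10 * L)) hNge (Real.exp_pos _).le (by rw [hYr])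
      (by
        intro T s hTX hT
        have hTy : ∀ p ∈ T, p.Prime ∧ y₁ < (p : ℝ) := by
          intro p hp
          obtain ⟨h1, -, h3⟩ := hT p hp
          rw [mem_EX hy₁0] at h3
          exact ⟨h1, not_le.1 h3⟩
        have h1 := count_class' (fun p => ((s p : ↥Rs) : ℤ[X])) M B' hMB W hW1 r T
          (fun p hp => ⟨(hTy p hp).1,
          PR_not_dvd hw0 (hTy p hp).1 (by
            have e1 := (hTy p hp).2
            rw [hw]
            linarith)⟩)
        have h2 : 𝒜.filter (fun a => ∀ p ∈ T, hit p a (s p)) =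
            (Finset.Ioc M B').filter (fun a : ℤ => (W : ℤ) ∣ a - r ∧
              ∀ p ∈ T, (p : ℤ) ∣ ((s p : ↥Rs) : ℤ[X]).eval a) := by
          rw [h𝒜, Finset.filter_filter]
          apply filter_congr
          intro a _
          constructor
          · rintro ⟨h1, h2⟩
            exact ⟨h1, fun p hp => (h2 p hp).2⟩
          · rintro ⟨h1, h2⟩
            exact ⟨h1, fun p hp => ⟨(hTy p hp).2, h2 p hp⟩⟩
        have h2' : ∏ p ∈ T, gd y₁ p ((s p : ↥Rs) : ℤ[X]) =
            ∏ p ∈ T, (Pool.Agent.H474R2.PG.rho ((s p : ↥Rs) : ℤ[X]) p : ℝ) / (p : ℝ) := by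
          apply prod_congr rfl
          intro p hp
          unfold gd
          rw [if_pos ⟨(hTy p hp).2, (hTy p hp).1⟩]
        rw [hYr] at hTX
        have h3 := h1.trans (err_le' Δ hΔ1 L (by linarith) a8 T
          (fun p => ((s p : ↥Rs) : ℤ[X])) (fun p hp => ⟨by linarith [(hTy p hp).2],
            hrhoG (s p) p (hTy p hp).1 (hTy p hp).2⟩) hTX)
        rw [h2']
        rw [← h2, ← hN] at h3
        refine le_trans (le_of_eq ?_) h3
        congr!)
    have hroot : Real.exp (L ^ (1 / 20 : ℝ)) ≤ Y ^ (1 / 10 : ℝ) := by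
      rw [hYr]
      apply Real.exp_le_exp.mpr
      have h1 : L ^ (1 / 20 : ℝ) ≤ L ^ (1 / 2 : ℝ) :=
        Real.rpow_le_rpow_of_exponent_le hL1 (by norm_num)
      have h2 : L ^ (1 / 2 : ℝ) * L ^ (1 / 2 : ℝ) = L := by
        rw [← Real.rpow_add hLpos]; norm_num
      have h3 : 10 ≤ L ^ (1 / 2 : ℝ) := by
        have h4 : (10 : ℝ) = (100 : ℝ) ^ (1 / 2 : ℝ) := by
          rw [← Real.sqrt_eq_rpow, show (100 : ℝ) = 10 ^ 2 by norm_num,
            Real.sqrt_sq (by norm_num)]
        rw [h4]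
        exact Real.rpow_le_rpow (by norm_num) (by linarith) (by norm_num)
      nlinarith
    refine hfin a ha (fun G hG => ?_) (fun G hG => ?_)
    · obtain ⟨p, hp, _, hpY, _, hpy, hpd⟩ := hac ⟨G, hG⟩
      exact ⟨p, hp, hpy, hpY.trans hroot, hpd⟩
    · have hGR : G ∈ Rs := by
        rw [hRs, mem_filter]
        rw [hZs, mem_filter] at hG
        exact ⟨hG.1, by omega⟩
      obtain ⟨p, q, hp, hq, hpq, _, _, hpY, hqY, _, _, hp1, hq1⟩ :=
        hacz ⟨G, hGR⟩ ((hdbl _).2 hG)
      exact ⟨p, q, hp, hq, hpq, hpY.trans hroot, hqY.trans hroot, hp1.2, hq1.2⟩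

end Pool.Agent.K7.H60.SP
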